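import Pool.Agent.Helper91.GU.StD

/-! # Project GU, module D3: heights of primes of `R[X]` (helper78) -/

set_option autoImplicit false

namespace Pool.Agent.Helper78.GU

open Polynomial IsLocalRing Pool.Agent.Helper91.GU

universe u

attribute [local instance] Polynomial.algebra Polynomial.isLocalization in
/-- `height P ≤ height (P ∩ R) + 1` -/
theorem height_le_comap_C {R : Type*} [CommRing R] [IsNoetherianRing R] (P : Ideal R[X])
    [hP : P.IsPrime] : P.height ≤ (P.comap C).height + 1 := by
  set p : Ideal R := P.comap C with hp
  have hpp : p.IsPrime := Ideal.IsPrime.comap _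
  have disj : Disjoint (p.primeCompl.map C : Set R[X]) P := by
    refine Set.disjoint_left.mpr fun a ⟨b, hb⟩ ha ↦ hb.1 ?_
    show C b ∈ P
    have : C b = a := hb.2
    rw [this]; exact ha
  have h1 : P.height = (P.map (algebraMap R[X] (Localization.AtPrime p)[X])).height := by
    rw [IsLocalization.height_map_of_disjoint (Submonoid.map C <| p.primeCompl) _ disj]
  have hprime : (P.map (algebraMap R[X] (Localization.AtPrime p)[X])).IsPrime :=
    IsLocalization.isPrime_of_isPrime_disjoint (Submonoid.map C <| p.primeCompl) _ P hP disj
  have h2 := Ideal.height_le_ringKrullDim_of_ne_top hprime.ne_top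
  rw [Polynomial.ringKrullDim_of_isNoetherianRing,
    IsLocalization.AtPrime.ringKrullDim_eq_height p, ← h1] at h2
  exact_mod_cast h2

theorem hD3 : StD3.{u} := by
  intro R _ _ P hP
  exact height_le_comap_C P

end Pool.Agent.Helper78.GU
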