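import Pool.Agent.Helper78.GU.Suslin1

/-!
# Project GU, block B1b: the theorem of Suslin

For every unimodular row `(v_0, .., v_r)` the row `(v_0^{r!}, v_1, .., v_r)` is the first row of a
matrix of determinant one (`r >= 1`).
-/

set_option autoImplicit false

namespace Pool.Agent.Helper78.GU

open Finset Matrix

universe u v w

section general

variable {A : Type u} [CommRing A] {ι : Type v} [Fintype ι] [DecidableEq ι]

theorem Um.sum_erase {v a : ι → A} (h : ∑ i, a i * v i = 1) (i0 : ι) :
    ∑ i ∈ univ.erase i0, a i * v i = 1 - a i0 * v i0 := by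
  rw [← h, ← Finset.add_sum_erase univ _ (Finset.mem_univ i0)]
  ring

theorem Um.pow {v : ι → A} (hv : Um v) (i0 : ι) (n : ℕ) :
    Um (Function.update v i0 (v i0 ^ n)) := by
  obtain ⟨a, ha⟩ := hv
  have h1 := Um.sum_erase ha i0
  set s := ∑ i ∈ univ.erase i0, a i * v i with hs
  have hd : s ∣ 1 - (1 - s) ^ n := by
    have h2 := sub_dvd_pow_sub_pow 1 (1 - s) n
    rw [one_pow] at h2
    have e : 1 - (1 - s) = s := by ring
    rwa [e] at h2
  obtain ⟨t, ht⟩ := hd
  refine ⟨Function.update (fun i => t * a i) i0 (a i0 ^ n), ?_⟩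
  rw [← Finset.add_sum_erase univ _ (Finset.mem_univ i0)]
  have h3 : ∑ i ∈ univ.erase i0, Function.update (fun i => t * a i) i0 (a i0 ^ n) i
      * Function.update v i0 (v i0 ^ n) i = t * s := by
    rw [hs, Finset.mul_sum]
    apply Finset.sum_congr rfl
    intro i hi
    have hne : i ≠ i0 := (Finset.mem_erase.mp hi).1
    rw [Function.update_of_ne hne, Function.update_of_ne hne]
    ring
  rw [h3, Function.update_self, Function.update_self]
  have h4 : a i0 ^ n * v i0 ^ n = (1 - s) ^ n := by
    rw [← mul_pow]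
    congr 1
    linear_combination h1
  rw [h4]
  linear_combination -ht

theorem eqv_single_iff (i0 : ι) (v : ι → A) :
    Eqv (Pi.single i0 1) v ↔ ∃ M : Matrix ι ι A, IsUnit M.det ∧ M i0 = v := by
  constructor
  · rintro ⟨g, hg, h⟩
    refine ⟨g, hg, ?_⟩
    rw [← h, Matrix.single_one_vecMul]
    rfl
  · rintro ⟨g, hg, h⟩
    refine ⟨g, hg, ?_⟩
    rw [← h, Matrix.single_one_vecMul]
    rfl

theorem det_one_of_unit {i0 i1 : ι} (h : i1 ≠ i0) (M : Matrix ι ι A) (hM : IsUnit M.det) :
    ∃ M' : Matrix ι ι A, M'.det = 1 ∧ M' i0 = M i0 := by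
  obtain ⟨u, hu⟩ := hM
  refine ⟨M.updateRow i1 (((u⁻¹ : Aˣ) : A) • M i1), ?_, ?_⟩
  · rw [Matrix.det_updateRow_smul, Matrix.updateRow_eq_self, ← hu, Units.inv_mul]
  · exact Matrix.updateRow_ne h.symm

omit [Fintype ι] in
theorem RE.single_single (i j : ι) : RE (Pi.single i (1 : A)) (Pi.single j 1) := by
  by_cases h : i = j
  · rw [h]
    exact RE.refl _
  · have s1 := RE.add (Pi.single i (1 : A)) h 1
    have s2 := RE.add (Function.update (Pi.single i (1 : A)) j
      ((Pi.single i (1 : A) : ι → A) j + 1 * (Pi.single i (1 : A) : ι → A) i)) (Ne.symm h) (-1)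
    refine (s1.trans s2).trans (RE.of_eq ?_)
    funext k
    by_cases hk : k = i
    · subst hk
      simp [h]
    · by_cases hk2 : k = j
      · subst hk2
        simp [h, hk]
      · simp [hk, hk2]

/-- invariance under reindexing -/
theorem Eqv.reindex {κ : Type w} [Fintype κ] [DecidableEq κ] (e : ι ≃ κ) {v v' : ι → A}
    (h : Eqv v v') : Eqv (v ∘ e.symm) (v' ∘ e.symm) := by
  obtain ⟨g, hg, rfl⟩ := h
  refine ⟨g.submatrix e.symm e.symm, ?_, ?_⟩
  · rwa [Matrix.det_submatrix_equiv_self]
  · funext k
    simp only [Matrix.vecMul, dotProduct, Function.comp_apply, Matrix.submatrix_apply]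
    exact Equiv.sum_comp e.symm (fun i => v i * g i (e.symm k))

theorem Um.reindex {κ : Type w} [Fintype κ] [DecidableEq κ] (e : ι ≃ κ) {v : ι → A}
    (h : Um v) : Um (v ∘ e.symm) := by
  obtain ⟨a, ha⟩ := h
  exact ⟨a ∘ e.symm, by rw [← ha]; exact Equiv.sum_comp e.symm (fun i => a i * v i)⟩

theorem Um.map {B : Type w} [CommRing B] (f : A →+* B) {v : ι → A} (h : Um v) :
    Um (fun i => f (v i)) := by
  obtain ⟨a, ha⟩ := h
  refine ⟨fun i => f (a i), ?_⟩
  rw [← map_one f, ← ha, map_sum]
  exact Finset.sum_congr rfl fun i _ => (map_mul f _ _).symm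

theorem Eqv.map {B : Type w} [CommRing B] (f : A →+* B) {v v' : ι → A} (h : Eqv v v') :
    Eqv (fun i => f (v i)) (fun i => f (v' i)) := by
  obtain ⟨g, hg, rfl⟩ := h
  refine ⟨f.mapMatrix g, ?_, ?_⟩
  · rw [← RingHom.map_det]
    exact hg.map f
  · funext k
    simp only [Matrix.vecMul, dotProduct, map_sum, map_mul, RingHom.mapMatrix_apply, Matrix.map_apply]

end general

section fin

/-- one step of the induction -/
theorem suslin_step {A : Type u} [CommRing A] (r : ℕ) (v : Fin (r + 3) → A) (hv : Um v)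
    (m : ℕ)
    (ih : ∀ (B : Type u) [CommRing B] (w : Fin (r + 2) → B), Um w →
      Eqv (Pi.single 0 1) (Function.update w 0 (w 0 ^ m))) :
    Eqv (Pi.single 0 1) (Function.update v 0 (v 0 ^ (m * (r + 2)))) := by
  classical
  set b : A := v (Fin.last (r + 2)) with hb
  let mk := Ideal.Quotient.mk (Ideal.span {b})
  have hmk : Function.Surjective mk := Ideal.Quotient.mk_surjective
  set w : Fin (r + 2) → A ⧸ Ideal.span {b} := fun i => mk (v i.castSucc) with hw
  have hbz : mk b = 0 := Ideal.Quotient.eq_zero_iff_mem.mpr (Ideal.subset_span rfl)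
  have hwu : Um w := by
    obtain ⟨a, ha⟩ := hv
    refine ⟨fun i => mk (a i.castSucc), ?_⟩
    rw [Fin.sum_univ_castSucc] at ha
    have h1 := congrArg mk ha
    rw [map_add, map_sum, map_one, map_mul] at h1
    change _ + mk (a (Fin.last (r + 2))) * mk b = 1 at h1
    rw [hbz, mul_zero, add_zero] at h1
    rw [← h1]
    exact Finset.sum_congr rfl fun i _ => (map_mul mk _ _).symm
  obtain ⟨M0, hM0, hM0r⟩ := (eqv_single_iff 0 _).mp (ih _ w hwu)
  obtain ⟨M, hM, hMr⟩ := det_one_of_unit (i0 := (0 : Fin (r + 2))) (i1 := 1)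
    (by simp) M0 hM0
  rw [hM0r] at hMr
  -- the row over `A`
  set a0 : Fin (r + 2) → A := Function.update (fun i => v i.castSucc) 0 (v 0 ^ m) with ha0
  have hlift : ∀ i j, ∃ x : A, mk x = M i j := fun i j => hmk _
  choose L hL using hlift
  let al : Matrix (Fin (r + 2)) (Fin (r + 2)) A := fun i j => if i = 0 then a0 j else L i j
  have hal : mk.mapMatrix al = M := by
    ext i j
    rw [RingHom.mapMatrix_apply, Matrix.map_apply]
    by_cases hi : i = 0
    · subst hi
      change mk (if (0 : Fin (r + 2)) = 0 then a0 j else L 0 j) = M 0 j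
      rw [if_pos rfl, hMr, ha0]
      by_cases hj : j = 0
      · subst hj
        rw [Function.update_self, Function.update_self, map_pow]
        rfl
      · rw [Function.update_of_ne hj, Function.update_of_ne hj]
    · change mk (if i = 0 then a0 j else L i j) = M i j
      rw [if_neg hi, hL]
  have hdet : ∃ c, al.det = 1 + b * c := by
    have h1 : mk al.det = 1 := by rw [RingHom.map_det, hal, hM]
    have h2 : mk (al.det - 1) = 0 := by rw [map_sub, h1, map_one, sub_self]
    obtain ⟨c, hc⟩ := Ideal.mem_span_singleton.mp (Ideal.Quotient.eq_zero_iff_mem.mp h2)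
    exact ⟨c, by linear_combination hc⟩
  obtain ⟨c, hc⟩ := hdet
  obtain ⟨N, N', hNN, hN1, hN2⟩ := suslin_lemma 0 al b c hc
  have hNdet : IsUnit N.det := by
    have h1 := congrArg Matrix.det hNN
    rw [Matrix.det_mul, Matrix.det_one] at h1
    exact IsUnit.of_mul_eq_one _ h1
  have hE1 : Eqv (Pi.single (Sum.inr ()) 1) (N (Sum.inr ())) :=
    (eqv_single_iff _ _).mpr ⟨N, hNdet, rfl⟩
  let e : Fin (r + 2) ⊕ Unit ≃ Fin (r + 3) :=
    { toFun := Sum.elim Fin.castSucc (fun _ => Fin.last (r + 2))
      invFun := Fin.lastCases (Sum.inr ()) Sum.inl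
      left_inv := by
        rintro (i | i)
        · simp
        · simp
      right_inv := by
        intro i
        refine Fin.lastCases ?_ (fun i => ?_) i
        · simp
        · simp }
  have hE2 := hE1.reindex e
  have hes : e.symm (Fin.last (r + 2)) = Sum.inr () := by
    rw [Equiv.symm_apply_eq]
    rfl
  have hec : ∀ i : Fin (r + 2), e.symm i.castSucc = Sum.inl i := by
    intro i
    rw [Equiv.symm_apply_eq]
    rfl
  have hrow1 : (Pi.single (Sum.inr ()) (1 : A) : (Fin (r + 2) ⊕ Unit) → A) ∘ e.symm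
      = Pi.single (Fin.last (r + 2)) 1 := by
    funext i
    refine Fin.lastCases ?_ (fun i => ?_) i
    · rw [Function.comp_apply, hes, Pi.single_eq_same, Pi.single_eq_same]
    · rw [Function.comp_apply, hec, Pi.single_eq_of_ne (by simp), Pi.single_eq_of_ne
        (Fin.castSucc_lt_last i).ne]
  set x : A := v 0 ^ m with hx
  have hrow2 : (N (Sum.inr ())) ∘ e.symm
      = Function.update (Function.update v 0 x) (Fin.last (r + 2)) (b ^ (r + 2)) := by
    funext i
    refine Fin.lastCases ?_ (fun i => ?_) i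
    · rw [Function.comp_apply, hes, hN2, Function.update_self, Fintype.card_fin]
    · rw [Function.comp_apply, hec, hN1, Function.update_of_ne (Fin.castSucc_lt_last i).ne]
      change a0 i = _
      rw [ha0]
      by_cases hi : i = 0
      · subst hi
        rw [Function.update_self, Fin.castSucc_zero, Function.update_self]
      · rw [Function.update_of_ne hi, Function.update_of_ne]
        intro h
        apply hi
        rw [← Fin.castSucc_zero] at h
        exact Fin.castSucc_injective _ h
  rw [hrow1, hrow2] at hE2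
  have hi1 : (0 : Fin (r + 3)) ≠ Fin.last (r + 2) := by
    intro h
    have := congrArg Fin.val h
    simp at this
  have hi2 : (0 : Fin (r + 3)) ≠ 1 := by simp
  have hi3 : Fin.last (r + 2) ≠ (1 : Fin (r + 3)) := by
    intro h
    have := congrArg Fin.val h
    simp at this
  have hux : Um (Function.update (Function.update v 0 (x ^ (r + 2))) (Fin.last (r + 2)) b) := by
    have h1 : Function.update (Function.update v 0 (x ^ (r + 2))) (Fin.last (r + 2)) b
        = Function.update v 0 (v 0 ^ (m * (r + 2))) := by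
      rw [Function.update_eq_iff]
      refine ⟨?_, fun _ _ => ?_⟩
      · rw [Function.update_of_ne hi1.symm]
      · rw [hx, ← pow_mul]
    rw [h1]
    exact hv.pow 0 _
  have hexp := RE.expo v hi1 hi2 hi3 (r + 2) x b hux
  have hfin : Function.update (Function.update v 0 (x ^ (r + 2))) (Fin.last (r + 2)) b
      = Function.update v 0 (v 0 ^ (m * (r + 2))) := by
    rw [Function.update_eq_iff]
    refine ⟨?_, fun _ _ => ?_⟩
    · rw [Function.update_of_ne hi1.symm]
    · rw [hx, ← pow_mul]
  rw [hfin] at hexp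
  exact ((RE.single_single 0 (Fin.last (r + 2))).eqv.trans hE2).trans hexp.symm.eqv

/-- Suslin's theorem -/
theorem suslin : ∀ (r : ℕ) (A : Type u) [CommRing A] (v : Fin (r + 2) → A), Um v →
    Eqv (Pi.single 0 1) (Function.update v 0 (v 0 ^ (r + 1).factorial))
  | 0, A, _, v, hv => by
    have h1 : Function.update v 0 (v 0 ^ (0 + 1).factorial) = v := by simp
    rw [h1]
    obtain ⟨a, ha⟩ := hv
    rw [Fin.sum_univ_two] at ha
    refine (eqv_single_iff 0 v).mpr ⟨!![v 0, v 1; -a 1, a 0], ?_, ?_⟩
    · rw [Matrix.det_fin_two_of]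
      have : v 0 * a 0 - v 1 * -a 1 = 1 := by linear_combination ha
      rw [this]
      exact isUnit_one
    · funext i
      fin_cases i <;> rfl
  | r + 1, A, _, v, hv => by
    have h := suslin_step r v hv (r + 1).factorial (fun B _ w hw => suslin r B w hw)
    have e : (r + 1 + 1).factorial = (r + 1).factorial * (r + 2) := by
      rw [Nat.factorial_succ (r + 1)]
      ring
    rw [e]
    exact h

end fin

/-- Suslin's theorem for an arbitrary index type and a matrix of determinant one -/
theorem suslin_det {A : Type u} [CommRing A] {ι : Type v} [Fintype ι] [DecidableEq ι]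
    (h2 : 2 ≤ Fintype.card ι) (i0 : ι) (v : ι → A) (hv : Um v) :
    ∃ M : Matrix ι ι A, M.det = 1 ∧
      M i0 = Function.update v i0 (v i0 ^ (Fintype.card ι - 1).factorial) := by
  classical
  obtain ⟨r, hr⟩ : ∃ r, Fintype.card ι = r + 2 := ⟨Fintype.card ι - 2, by omega⟩
  let e0 : ι ≃ Fin (r + 2) := Fintype.equivFinOfCardEq hr
  let e : ι ≃ Fin (r + 2) := e0.trans (Equiv.swap (e0 i0) 0)
  have he : e i0 = 0 := by simp [e]
  have hes : e.symm 0 = i0 := by rw [Equiv.symm_apply_eq, he]
  have h1 := suslin r A (v ∘ e.symm) (hv.reindex e)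
  have h3 := h1.reindex e.symm
  have r1 : (Pi.single (0 : Fin (r + 2)) (1 : A)) ∘ e.symm.symm = Pi.single i0 1 := by
    funext i
    rw [Function.comp_apply, Equiv.symm_symm]
    by_cases hi : i = i0
    · rw [hi, he, Pi.single_eq_same, Pi.single_eq_same]
    · rw [Pi.single_eq_of_ne hi, Pi.single_eq_of_ne]
      intro h
      exact hi (e.injective (h.trans he.symm))
  have r2 : (Function.update (v ∘ e.symm) 0 ((v ∘ e.symm) 0 ^ (r + 1).factorial)) ∘ e.symm.symm
      = Function.update v i0 (v i0 ^ (Fintype.card ι - 1).factorial) := by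
    funext i
    rw [Function.comp_apply, Equiv.symm_symm]
    by_cases hi : i = i0
    · rw [hi, he, Function.update_self, Function.update_self, Function.comp_apply, hes, hr]
      rfl
    · rw [Function.update_of_ne hi, Function.update_of_ne]
      · simp
      · intro h
        exact hi (e.injective (h.trans he.symm))
  rw [r1, r2] at h3
  obtain ⟨M, hM, hMr⟩ := (eqv_single_iff i0 _).mp h3
  obtain ⟨i1, hi1⟩ := Fintype.exists_ne_of_one_lt_card (by omega : 1 < Fintype.card ι) i0
  obtain ⟨M', hM', hMr'⟩ := det_one_of_unit hi1 M hM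
  exact ⟨M', hM', hMr'.trans hMr⟩

end Pool.Agent.Helper78.GU
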