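import Pool.Agent.Helper91.GU.StD

/-! # Project GU, module D1: prime avoidance with powers of a parameter (helper78) -/

set_option autoImplicit false

namespace Pool.Agent.Helper78.GU

open Polynomial IsLocalRing Pool.Agent.Helper91.GU

universe u

theorem hD1 : StD1.{u} := by
  intro L E _ _ _ _ S hS hP ψ
  classical
  have hpi : ∃ π ∈ maximalIdeal L, ∀ P ∈ S, algebraMap L E π ∉ P := by
    by_contra hcon
    push Not at hcon
    have hsub : ((maximalIdeal L : Ideal L) : Set L) ⊆
        ⋃ P ∈ ((hS.toFinset : Finset (Ideal E)) : Set (Ideal E)),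
          ((P.comap (algebraMap L E) : Ideal L) : Set L) := by
      intro x hx
      obtain ⟨P, hPS, hxP⟩ := hcon x hx
      simp only [Set.mem_iUnion]
      exact ⟨P, by simpa using hPS, hxP⟩
    rw [Ideal.subset_union_prime (⊤ : Ideal E) ⊤] at hsub
    · obtain ⟨P, hPS, hle⟩ := hsub
      have hPS' : P ∈ S := by simpa using hPS
      obtain ⟨hpr, hne⟩ := hP P hPS'
      have hpr' : (P.comap (algebraMap L E)).IsPrime := Ideal.IsPrime.comap _
      exact hne (le_antisymm (le_maximalIdeal hpr'.ne_top) hle)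
    · intro P hPS _ _
      have hPS' : P ∈ S := by simpa using hPS
      have hpr := (hP P hPS').1
      exact Ideal.IsPrime.comap _
  obtain ⟨π, hπ, hπS⟩ := hpi
  have hfin : (⋃ P ∈ S, {i : ℕ | ψ - algebraMap L E (π ^ (i + 1)) ∈ P}).Finite := by
    refine hS.biUnion ?_
    intro P hPS
    refine Set.Subsingleton.finite ?_
    have hpr := (hP P hPS).1
    have key : ∀ i j : ℕ, i < j → ψ - algebraMap L E (π ^ (i + 1)) ∈ P →
        ψ - algebraMap L E (π ^ (j + 1)) ∈ P → False := by
      intro i j hij hi hj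
      have h1 : algebraMap L E (π ^ (i + 1) - π ^ (j + 1)) ∈ P := by
        have := P.sub_mem hj hi
        rw [map_sub]
        have e : (algebraMap L E (π ^ (i + 1)) - algebraMap L E (π ^ (j + 1))) =
            (ψ - algebraMap L E (π ^ (j + 1))) - (ψ - algebraMap L E (π ^ (i + 1))) := by ring
        rw [e]; exact this
      obtain ⟨k, rfl⟩ := Nat.exists_eq_add_of_lt hij
      have e2 : π ^ (i + 1) - π ^ (i + k + 1 + 1) = π ^ (i + 1) * (1 - π ^ (k + 1)) := by ring
      rw [e2, map_mul] at h1
      rcases hpr.mem_or_mem h1 with h2 | h2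
      · rw [map_pow] at h2
        exact hπS P hPS (hpr.mem_of_pow_mem _ h2)
      · have hu : IsUnit (1 - π ^ (k + 1)) := by
          rcases isUnit_or_isUnit_one_sub_self (π ^ (k + 1)) with h | h
          · exfalso
            exact (mem_maximalIdeal _).1 (Ideal.pow_mem_of_mem _ hπ (k + 1) (Nat.succ_pos k)) h
          · exact h
        exact hpr.ne_top (Ideal.eq_top_of_isUnit_mem _ h2 (hu.map _))
    intro i hi j hj
    rcases lt_trichotomy i j with h | h | h
    · exact (key i j h hi hj).elim
    · exact h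
    · exact (key j i h hj hi).elim
  obtain ⟨i, hi⟩ := hfin.infinite_compl.nonempty
  refine ⟨π ^ (i + 1), Ideal.pow_mem_of_mem _ hπ (i + 1) (Nat.succ_pos i), ?_⟩
  intro P hPS hmem
  apply hi
  simp only [Set.mem_iUnion]
  exact ⟨P, hPS, hmem⟩

end Pool.Agent.Helper78.GU
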