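import Pool.Agent.Helper91.GU.StD

/-! # Project GU, module D2: cutting (helper78) -/

set_option autoImplicit false

namespace Pool.Agent.Helper78.GU

open Polynomial IsLocalRing Pool.Agent.Helper91.GU

universe u

theorem hD2 : StD2.{u} := by
  intro E _ J x t hmin hht P hP hJP hxP
  obtain ⟨Q, hQ, hQP⟩ := Ideal.exists_minimalPrimes_le hJP
  have hQp : Q.IsPrime := hQ.1.1
  have hne : Q ≠ P := by
    rintro rfl
    exact hmin Q hQ hxP
  have hlt : Q < P := lt_of_le_of_ne hQP hne
  have h1 := Ideal.height_add_one_le_of_lt_of_isPrime hlt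
  have h2 := hht Q hQp hQ.1.2
  calc ((t + 1 : ℕ) : ℕ∞) = (t : ℕ∞) + 1 := by push_cast; rfl
    _ ≤ Q.height + 1 := by gcongr
    _ ≤ P.height := h1

end Pool.Agent.Helper78.GU
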