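import Pool.Agent.Helper91.GU.StD
import Pool.Agent.Helper78.GU.M_D3

/-! # Project GU, module D3b: heights in punctured localisations (helper78) -/

set_option autoImplicit false

namespace Pool.Agent.Helper78.GU

open Polynomial IsLocalRing Pool.Agent.Helper91.GU

universe u

/-- a prime `p ≠ m` of a local ring of dimension at most `δ` satisfies `height p + 1 ≤ δ` -/
theorem height_add_one_le_of_ne {L : Type*} [CommRing L] [IsLocalRing L] (δ : ℕ)
    (hδ : ringKrullDim L ≤ δ) (p : Ideal L) [hp : p.IsPrime] (hne : p ≠ maximalIdeal L) :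
    p.height + 1 ≤ δ := by
  have hlt : p < maximalIdeal L := lt_of_le_of_ne (le_maximalIdeal hp.ne_top) hne
  have h1 := Ideal.height_add_one_le_of_lt_of_isPrime hlt
  have h2 := IsLocalRing.maximalIdeal_height_eq_ringKrullDim (R := L)
  rw [← h2] at hδ
  exact h1.trans (by exact_mod_cast hδ)

theorem comap_ne_of_punctured {L E : Type*} [CommRing L] [IsLocalRing L] [CommRing E] [Algebra L E]
    (hpunct : (maximalIdeal L).map (algebraMap L E) = ⊤) (P : Ideal E) [hP : P.IsPrime] :
    P.comap (algebraMap L E) ≠ maximalIdeal L := by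
  intro h
  apply hP.ne_top
  rw [eq_top_iff, ← hpunct, Ideal.map_le_iff_le_comap, h]

theorem hD3b' : StD3b.{u} := by
  intro L _ _ _ δ hδ
  constructor
  · intro E _ _ _ _ M _ hpunct P hP
    have h1 : P.height = (P.comap (algebraMap L[X] E)).height :=
      (IsLocalization.height_under M P).symm
    have hQ : (P.comap (algebraMap L[X] E)).IsPrime := Ideal.IsPrime.comap _
    have h2 := height_le_comap_C (P.comap (algebraMap L[X] E))
    have e : ((P.comap (algebraMap L[X] E)).comap C) = P.comap (algebraMap L E) := by
      rw [Ideal.comap_comap, ← Polynomial.algebraMap_eq, ← IsScalarTower.algebraMap_eq L L[X] E]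
    have hpp : (P.comap (algebraMap L E)).IsPrime := Ideal.IsPrime.comap _
    have h3 := height_add_one_le_of_ne δ hδ (P.comap (algebraMap L E))
      (comap_ne_of_punctured hpunct P)
    rw [h1]
    rw [e] at h2
    exact h2.trans h3
  · intro E _ _ _ _ M _ hpunct P hP
    have h1 : P.height = (P.comap (algebraMap L[X][X] E)).height :=
      (IsLocalization.height_under M P).symm
    have hQ : (P.comap (algebraMap L[X][X] E)).IsPrime := Ideal.IsPrime.comap _
    have hQ2 : ((P.comap (algebraMap L[X][X] E)).comap C).IsPrime := Ideal.IsPrime.comap _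
    have h2 := height_le_comap_C (P.comap (algebraMap L[X][X] E))
    have h2' := height_le_comap_C ((P.comap (algebraMap L[X][X] E)).comap C)
    have e : (((P.comap (algebraMap L[X][X] E)).comap C).comap C) = P.comap (algebraMap L E) := by
      rw [Ideal.comap_comap, Ideal.comap_comap, IsScalarTower.algebraMap_eq L L[X][X] E]
      rfl
    have hpp : (P.comap (algebraMap L E)).IsPrime := Ideal.IsPrime.comap _
    have h3 := height_add_one_le_of_ne δ hδ (P.comap (algebraMap L E))
      (comap_ne_of_punctured hpunct P)
    rw [h1]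
    rw [e] at h2'
    calc (P.comap (algebraMap L[X][X] E)).height ≤ _ := h2
      _ ≤ ((P.comap (algebraMap L E)).height + 1) + 1 := by gcongr
      _ ≤ (δ : ℕ∞) + 1 := by gcongr
      _ = ((δ + 1 : ℕ) : ℕ∞) := by push_cast; rfl

theorem hD3b (_hD3 : StD3.{u}) : StD3b.{u} := hD3b'

end Pool.Agent.Helper78.GU
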