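import Mathlib

/-! # Project GU: prime avoidance by one polynomial in a parameter (helper78) -/

set_option autoImplicit false

namespace Pool.Agent.Helper78.GU

open IsLocalRing

universe u

/-- If `∑_l z_i^l b_l ∈ q` for `N + 1` elements `z_i` of the local ring `R` with distinct residue
classes, then all `b_l ∈ q`. -/
theorem mem_of_vandermonde {R B : Type*} [CommRing R] [IsLocalRing R] [CommRing B] [Algebra R B]
    (N : ℕ) (z : Fin (N + 1) → R) (hz : ∀ i j, i ≠ j → IsUnit (z i - z j))
    (b : Fin (N + 1) → B) (q : Ideal B)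
    (h : ∀ i, ∑ l : Fin (N + 1), algebraMap R B (z i ^ (l : ℕ)) * b l ∈ q) : ∀ l, b l ∈ q := by
  classical
  set V : Matrix (Fin (N + 1)) (Fin (N + 1)) B :=
    (Matrix.vandermonde z).map (algebraMap R B) with hV
  have hdet : IsUnit V.det := by
    have h1 : V.det = algebraMap R B (Matrix.vandermonde z).det := by
      rw [hV, ← RingHom.mapMatrix_apply, ← RingHom.map_det]
    rw [h1, Matrix.det_vandermonde]
    refine IsUnit.map _ ?_
    rw [IsUnit.prod_iff]
    intro i _
    rw [IsUnit.prod_iff]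
    intro j hj
    exact hz j i (by
      rintro rfl
      exact absurd (Finset.mem_Ioi.1 hj) (lt_irrefl _))
  intro l
  have h1 : ∀ i, (V.mulVec b) i ∈ q := by
    intro i
    have : (V.mulVec b) i = ∑ l : Fin (N + 1), algebraMap R B (z i ^ (l : ℕ)) * b l := by
      simp [hV, Matrix.mulVec, dotProduct, Matrix.vandermonde_apply]
    rw [this]; exact h i
  have h2 : b = V⁻¹.mulVec (V.mulVec b) := by
    rw [Matrix.mulVec_mulVec, Matrix.nonsing_inv_mul V hdet, Matrix.one_mulVec]
  rw [h2]
  show ∑ i, V⁻¹ l i * (V.mulVec b) i ∈ q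
  exact q.sum_mem (fun i _ => q.mul_mem_left _ (h1 i))

/-- Prime avoidance by `∑ z^l b_l`: `R` local with infinite residue field, finitely many ideals
`q ∈ S` of the `R`-algebra `B`, none of which contains all `b_l`. -/
theorem exists_avoid_poly {R B : Type*} [CommRing R] [IsLocalRing R] [CommRing B] [Algebra R B]
    [Infinite (ResidueField R)] (N : ℕ) (b : Fin (N + 1) → B) (S : Set (Ideal B)) (hS : S.Finite)
    (hb : ∀ q ∈ S, ∃ l, b l ∉ q) (W : Set (ResidueField R)) (hW : W.Finite) :
    ∃ z : R, residue R z ∉ W ∧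
      ∀ q ∈ S, ∑ l : Fin (N + 1), algebraMap R B (z ^ (l : ℕ)) * b l ∉ q := by
  classical
  -- for every ideal the set of bad residue classes is finite
  have hbad : ∀ q ∈ S, {x : ResidueField R | ∃ z : R, residue R z = x ∧
      ∑ l : Fin (N + 1), algebraMap R B (z ^ (l : ℕ)) * b l ∈ q}.Finite := by
    intro q hq
    by_contra hinf
    have hinf' : {x : ResidueField R | ∃ z : R, residue R z = x ∧
      ∑ l : Fin (N + 1), algebraMap R B (z ^ (l : ℕ)) * b l ∈ q}.Infinite := hinf
    obtain ⟨t, ht, hcard⟩ := hinf'.exists_subset_card_eq (N + 1)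
    have hx : ∀ x : t, ∃ z : R, residue R z = x ∧
      ∑ l : Fin (N + 1), algebraMap R B (z ^ (l : ℕ)) * b l ∈ q := fun x => ht x.2
    choose z hz1 hz2 using hx
    let e : Fin (N + 1) ≃ t := (Finset.equivFinOfCardEq hcard).symm
    obtain ⟨l, hl⟩ := hb q hq
    apply hl
    refine mem_of_vandermonde N (fun i => z (e i)) ?_ b q (fun i => hz2 (e i)) l
    intro i j hij
    by_contra hnu
    have h1 : residue R (z (e i) - z (e j)) = 0 := by
      rw [residue_eq_zero_iff]
      exact (mem_maximalIdeal _).2 hnu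
    rw [map_sub, hz1, hz1, sub_eq_zero] at h1
    exact hij (e.injective (Subtype.ext h1))
  have hfin : (W ∪ ⋃ q ∈ S, {x : ResidueField R | ∃ z : R, residue R z = x ∧
      ∑ l : Fin (N + 1), algebraMap R B (z ^ (l : ℕ)) * b l ∈ q}).Finite :=
    hW.union (hS.biUnion hbad)
  obtain ⟨x, hx⟩ := hfin.infinite_compl.nonempty
  obtain ⟨z, rfl⟩ := residue_surjective x
  refine ⟨z, fun h => hx (Or.inl h), ?_⟩
  intro q hq hmem
  apply hx
  right
  simp only [Set.mem_iUnion]
  exact ⟨q, hq, z, rfl, hmem⟩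

end Pool.Agent.Helper78.GU
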