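import Pool.Agent.Helper78.GU.M_D3

/-! # Project GU: chains of primes and heights (helper78) -/

set_option autoImplicit false

namespace Pool.Agent.Helper78.GU

open Polynomial

/-- `c 0 < c 1 < .. < c k` are primes of `A` -/
def PChain {A : Type*} [CommRing A] (k : ℕ) (c : ℕ → Ideal A) : Prop :=
  (∀ i, i ≤ k → (c i).IsPrime) ∧ ∀ i, i < k → c i < c (i + 1)

theorem PChain.height_add_le {A : Type*} [CommRing A] {k : ℕ} {c : ℕ → Ideal A}
    (h : PChain k c) : ∀ i, i ≤ k → (c 0).height + (i : ℕ∞) ≤ (c i).height := by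
  intro i
  induction i with
  | zero => intro _; simp
  | succ i ih =>
    intro hi
    have h1 := ih (by omega)
    have hp1 : (c i).IsPrime := h.1 i (by omega)
    have hp2 : (c (i + 1)).IsPrime := h.1 (i + 1) hi
    have h2 := Ideal.height_add_one_le_of_lt_of_isPrime (h.2 i (by omega))
    calc (c 0).height + ((i + 1 : ℕ) : ℕ∞) = ((c 0).height + (i : ℕ∞)) + 1 := by
          push_cast; rw [add_assoc]
      _ ≤ (c i).height + 1 := by gcongr
      _ ≤ _ := h2

theorem PChain.le_height {A : Type*} [CommRing A] {k : ℕ} {c : ℕ → Ideal A}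
    (h : PChain k c) : (k : ℕ∞) ≤ (c k).height := by
  refine le_trans ?_ (h.height_add_le k le_rfl)
  simp

theorem PChain.zero_le {A : Type*} [CommRing A] {k : ℕ} {c : ℕ → Ideal A}
    (h : PChain k c) : ∀ i, i ≤ k → c 0 ≤ c i := by
  intro i
  induction i with
  | zero => intro _; exact le_rfl
  | succ i ih => intro hi; exact (ih (by omega)).trans (h.2 i (by omega)).le

theorem exists_pchain {A : Type*} [CommRing A] (k : ℕ) : ∀ (P : Ideal A) [P.IsPrime],
    (k : ℕ∞) ≤ P.height → ∃ c : ℕ → Ideal A, PChain k c ∧ c k = P := by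
  induction k with
  | zero =>
    intro P hP _
    exact ⟨fun _ => P, ⟨fun _ _ => hP, fun i hi => absurd hi (Nat.not_lt_zero i)⟩, rfl⟩
  | succ k ih =>
    intro P hP hk
    have h1 : ¬ P.height ≤ (k : ℕ∞) := by
      intro h
      have : ((k + 1 : ℕ) : ℕ∞) ≤ (k : ℕ∞) := hk.trans h
      have := Nat.cast_le.1 this
      omega
    rw [Ideal.height_le_iff] at h1
    push Not at h1
    obtain ⟨q, hq, hqP, hk2⟩ := h1
    obtain ⟨c, hc, hck⟩ := ih q hk2
    refine ⟨fun i => if i ≤ k then c i else P, ⟨?_, ?_⟩, ?_⟩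
    · intro i hi
      by_cases h : i ≤ k
      · simp only [h, if_true]; exact hc.1 i h
      · simp only [h, if_false]; exact hP
    · intro i hi
      by_cases h : i + 1 ≤ k
      · have h' : i ≤ k := by omega
        simp only [h, h', if_true]; exact hc.2 i (by omega)
      · have h' : i = k := by omega
        subst h'
        simp only [le_refl, if_true, h, if_false, hck]
        exact hqP
    · simp

theorem height_le_of_pchain {A : Type*} [CommRing A] (P : Ideal A) [P.IsPrime] (n : ℕ∞)
    (h : ∀ (k : ℕ) (c : ℕ → Ideal A), PChain k c → c k = P → (k : ℕ∞) ≤ n) : P.height ≤ n := by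
  refine ENat.forall_natCast_le_iff_le.1 ?_
  intro k hk
  obtain ⟨c, hc, hck⟩ := exists_pchain k P hk
  exact h k c hc hck

theorem PChain.comap {A B : Type*} [CommRing A] [CommRing B] (f : A →+* B)
    (hf : Function.Surjective f) {k : ℕ} {c : ℕ → Ideal B} (h : PChain k c) :
    PChain k (fun i => (c i).comap f) := by
  refine ⟨fun i hi => ?_, fun i hi => ?_⟩
  · have := h.1 i hi
    exact Ideal.IsPrime.comap _
  · refine lt_of_le_of_ne (Ideal.comap_mono (h.2 i hi).le) ?_
    intro e
    exact (h.2 i hi).ne (Ideal.comap_injective_of_surjective f hf e)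

theorem PChain.map {A B : Type*} [CommRing A] [CommRing B] (f : A →+* B)
    (hf : Function.Surjective f) {k : ℕ} {c : ℕ → Ideal A} (h : PChain k c)
    (hker : RingHom.ker f ≤ c 0) :
    PChain k (fun i => (c i).map f) := by
  have key : ∀ i, i ≤ k → ((c i).map f).comap f = c i := by
    intro i hi
    rw [Ideal.comap_map_of_surjective f hf]
    exact sup_eq_left.2 (hker.trans (h.zero_le i hi))
  refine ⟨fun i hi => ?_, fun i hi => ?_⟩
  · have := h.1 i hi
    exact Ideal.map_isPrime_of_surjective hf (hker.trans (h.zero_le i hi))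
  · refine lt_of_le_of_ne (Ideal.map_mono (h.2 i hi).le) ?_
    intro e
    apply (h.2 i hi).ne
    rw [← key i hi.le, ← key (i + 1) hi]
    exact congrArg (Ideal.comap f) e

/-- `height P + height (ker f) ≤ height (f⁻¹ P)` -/
theorem height_add_ker_le {A B : Type*} [CommRing A] [CommRing B] (f : A →+* B)
    (hf : Function.Surjective f) (P : Ideal B) [hP : P.IsPrime] (hfin : P.height ≠ ⊤) :
    P.height + (RingHom.ker f).height ≤ (P.comap f).height := by
  obtain ⟨k, hk⟩ := ENat.ne_top_iff_exists.1 hfin
  obtain ⟨c, hc, hck⟩ := exists_pchain k P hk.le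
  have h2 := (hc.comap f hf).height_add_le k le_rfl
  have h3 : (RingHom.ker f).height ≤ ((c 0).comap f).height :=
    Ideal.height_mono (Ideal.ker_le_comap f)
  simp only [hck] at h2
  rw [← hk]
  calc (k : ℕ∞) + (RingHom.ker f).height ≤ (k : ℕ∞) + ((c 0).comap f).height := by gcongr
    _ = ((c 0).comap f).height + (k : ℕ∞) := add_comm _ _
    _ ≤ _ := h2

theorem height_le_comap_of_surjective {A B : Type*} [CommRing A] [CommRing B] (f : A →+* B)
    (hf : Function.Surjective f) (P : Ideal B) [hP : P.IsPrime] :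
    P.height ≤ (P.comap f).height := by
  refine height_le_of_pchain P _ ?_
  intro k c hc hck
  have h2 := (hc.comap f hf).le_height
  simpa only [hck] using h2

end Pool.Agent.Helper78.GU
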