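import Pool.Agent.Helper78.GU.Chain

/-! # Project GU: the dimension inequality for finitely generated domains (helper78) -/

set_option autoImplicit false

namespace Pool.Agent.Helper78.GU

open Polynomial

universe u

/-- `height P ≤ height (P ∩ D) + trdeg` for all primes of `B` -/
def Good (D B : Type u) [CommRing D] [CommRing B] [Algebra D B] : Prop :=
  ∀ P : Ideal B, P.IsPrime →
    P.height ≤ (P.comap (algebraMap D B)).height + Cardinal.toENat (Algebra.trdeg D B)

theorem Good.one {D B : Type u} [CommRing D] [IsNoetherianRing D] [CommRing B] [IsDomain B]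
    [Algebra D B] [FaithfulSMul D B] (x : B) (hx : Algebra.adjoin D {x} = ⊤) : Good D B := by
  intro P hP
  have hinj : Function.Injective (algebraMap D B) := FaithfulSMul.algebraMap_injective D B
  have hD : IsDomain D := hinj.isDomain (algebraMap D B)
  have hf : Function.Surjective (aeval x : D[X] →ₐ[D] B) := by
    rw [← AlgHom.range_eq_top, ← Algebra.adjoin_singleton_eq_range_aeval, hx]
  have hN : IsNoetherianRing B := isNoetherianRing_of_surjective D[X] B
    ((aeval x : D[X] →ₐ[D] B) : D[X] →+* B) hf
  set f : D[X] →+* B := ((aeval x : D[X] →ₐ[D] B) : D[X] →+* B) with hfdef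
  have hpr : (P.comap f).IsPrime := Ideal.IsPrime.comap _
  have h1 := height_le_comap_C (P.comap f)
  have e : (P.comap f).comap C = P.comap (algebraMap D B) := by
    rw [Ideal.comap_comap]
    congr 1
    ext a
    simp [hfdef]
  rw [e] at h1
  by_cases hk : RingHom.ker f = ⊥
  · have h2 := height_le_comap_of_surjective f hf P
    have h3 : (1 : Cardinal) ≤ Algebra.trdeg D B := by
      have := trdeg_le_of_injective (aeval x : D[X] →ₐ[D] B)
        ((RingHom.injective_iff_ker_eq_bot f).2 hk)
      rwa [Polynomial.trdeg_of_isDomain] at this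
    have h4 : (1 : ℕ∞) ≤ Cardinal.toENat (Algebra.trdeg D B) := by
      have := Cardinal.toENat.monotone' h3
      simpa using this
    calc P.height ≤ _ := h2
      _ ≤ _ := h1
      _ ≤ _ := by gcongr
  · have h5 : (1 : ℕ∞) ≤ (RingHom.ker f).height := by
      rw [Order.one_le_iff_ne_zero]
      intro h
      have hkp : (RingHom.ker f).IsPrime := RingHom.ker_isPrime f
      exact hk (Ideal.height_eq_zero_iff_eq_bot.1 h)
    have h6 : P.height ≠ ⊤ := Ideal.height_ne_top hP.ne_top
    have h7 := height_add_ker_le f hf P h6
    have h8 : P.height + 1 ≤ (P.comap (algebraMap D B)).height + 1 :=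
      calc P.height + 1 ≤ P.height + (RingHom.ker f).height := by gcongr
        _ ≤ _ := h7
        _ ≤ _ := h1
    have h9 : P.height ≤ (P.comap (algebraMap D B)).height :=
      (ENat.add_le_add_iff_right (by simp)).1 h8
    exact h9.trans le_self_add

theorem Good.comp {D B E : Type u} [CommRing D] [Nontrivial D] [CommRing B] [CommRing E]
    [NoZeroDivisors E] [Algebra D B] [Algebra B E] [Algebra D E] [IsScalarTower D B E]
    [FaithfulSMul D B] [FaithfulSMul B E] (h1 : Good D B) (h2 : Good B E) : Good D E := by
  intro P hP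
  have hp : (P.comap (algebraMap B E)).IsPrime := Ideal.IsPrime.comap _
  have e : (P.comap (algebraMap B E)).comap (algebraMap D B) = P.comap (algebraMap D E) := by
    rw [Ideal.comap_comap, ← IsScalarTower.algebraMap_eq D B E]
  have h3 := h1 _ hp
  have h4 := h2 P hP
  rw [e] at h3
  have h5 : Algebra.trdeg D E = Algebra.trdeg D B + Algebra.trdeg B E :=
    (trdeg_add_eq D B (A := E)).symm
  rw [h5, map_add, ← add_assoc]
  calc P.height ≤ _ := h4
    _ ≤ _ := by gcongr

theorem Good.of_surjective {D B : Type u} [CommRing D] [CommRing B] [Algebra D B]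
    (h : Function.Surjective (algebraMap D B)) : Good D B := by
  intro P hP
  exact (height_le_comap_of_surjective _ h P).trans le_self_add

theorem Good.equiv {D B B' : Type u} [CommRing D] [CommRing B] [CommRing B'] [Algebra D B]
    [Algebra D B'] (e : B ≃ₐ[D] B') (h : Good D B) : Good D B' := by
  intro P hP
  have hp : (P.comap (e : B →+* B')).IsPrime := Ideal.IsPrime.comap _
  have h1 := h _ hp
  have h2 : (P.comap (e : B →+* B')).height = P.height := RingEquiv.height_comap e.toRingEquiv P
  have h3 : (P.comap (e : B →+* B')).comap (algebraMap D B) = P.comap (algebraMap D B') := by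
    rw [Ideal.comap_comap]
    congr 1
    ext a
    simp
  rw [h2, h3, e.trdeg_eq] at h1
  exact h1

theorem Good.adjoin {D Ω : Type u} [CommRing D] [IsNoetherianRing D] [CommRing Ω] [IsDomain Ω]
    [Algebra D Ω] [FaithfulSMul D Ω] (s : Finset Ω) :
    Good D (Algebra.adjoin D (s : Set Ω)) := by
  classical
  have hD : IsDomain D := (FaithfulSMul.algebraMap_injective D Ω).isDomain (algebraMap D Ω)
  induction s using Finset.induction_on with
  | empty =>
    rw [Finset.coe_empty, Algebra.adjoin_empty]
    refine Good.of_surjective ?_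
    rintro ⟨y, hy⟩
    obtain ⟨a, rfl⟩ := Algebra.mem_bot.1 hy
    exact ⟨a, rfl⟩
  | insert x s hx ih =>
    have hN : IsNoetherianRing (Algebra.adjoin D (s : Set Ω)) :=
      isNoetherianRing_of_fg ⟨s, rfl⟩
    have h1 : Good (Algebra.adjoin D (s : Set Ω))
        (Algebra.adjoin (Algebra.adjoin D (s : Set Ω)) ({x} : Set Ω)) := by
      refine Good.one ⟨x, Algebra.subset_adjoin rfl⟩ ?_
      have h2 := Algebra.adjoin_adjoin_coe_preimage (R := Algebra.adjoin D (s : Set Ω))
        (s := ({x} : Set Ω))
      rw [← h2]
      congr 1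
      ext y
      simp [Subtype.ext_iff]
    have h3 : Good D (Algebra.adjoin (Algebra.adjoin D (s : Set Ω)) ({x} : Set Ω)) :=
      Good.comp ih h1
    have h4 : Algebra.adjoin D ((insert x s : Finset Ω) : Set Ω) =
        (Algebra.adjoin (Algebra.adjoin D (s : Set Ω)) ({x} : Set Ω)).restrictScalars D := by
      rw [← Algebra.adjoin_union_eq_adjoin_adjoin, Finset.coe_insert, Set.union_comm,
        Set.singleton_union]
    rw [h4]
    exact h3

theorem Good.of_finiteType {D B : Type u} [CommRing D] [IsNoetherianRing D] [CommRing B]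
    [IsDomain B] [Algebra D B] [FaithfulSMul D B] [hft : Algebra.FiniteType D B] : Good D B := by
  obtain ⟨s, hs⟩ := hft.out
  have h := Good.adjoin (D := D) s
  rw [hs] at h
  exact Good.equiv Subalgebra.topEquiv h

end Pool.Agent.Helper78.GU
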