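import Pool.Agent.Helper78.GU.SubHeight2
import Pool.Agent.Helper78.GU.M_D3b

/-! # Project GU: bounds for chains of primes in subalgebras of polynomial rings (helper78) -/

set_option autoImplicit false

namespace Pool.Agent.Helper78.GU

open Polynomial IsLocalRing

universe u

/-- `E` over `R` has relative dimension at most `N`, and minimal primes of `E` lie over minimal
primes of `R` -/
structure HB (R E : Type u) [CommRing R] [CommRing E] [Algebra R E] (N : ℕ) : Prop where
  ht : ∀ P : Ideal E, P.IsPrime → P.height ≤ (P.comap (algebraMap R E)).height + N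
  mp : ∀ q ∈ minimalPrimes E, q.comap (algebraMap R E) ∈ minimalPrimes R

/-- subalgebras of `R[Y_1..Y_N]` -/
theorem HB.of_injective {R A : Type u} [CommRing R] [IsNoetherianRing R] [CommRing A]
    [Algebra R A] (N : ℕ)
    (f : A →ₐ[R] MvPolynomial (Fin N) R) (hf : Function.Injective f) : HB R A N :=
  ⟨fun P _ => height_le_of_injective N f hf P, fun q hq => under_mem_minimalPrimes N f hf q hq⟩

/-- localisations -/
theorem HB.of_localization {R A E : Type u} [CommRing R] [CommRing A]
    [Algebra R A] [CommRing E] [Algebra A E] [Algebra R E] [IsScalarTower R A E] {N : ℕ}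
    (h : HB R A N) (M : Submonoid A) [IsLocalization M E] : HB R E N := by
  refine ⟨fun P hP => ?_, fun q hq => ?_⟩
  · have h1 : (P.comap (algebraMap A E)).height = P.height := IsLocalization.height_under M P
    have hp : (P.comap (algebraMap A E)).IsPrime := Ideal.IsPrime.comap _
    have h2 := h.ht (P.comap (algebraMap A E)) hp
    rw [Ideal.comap_comap, ← IsScalarTower.algebraMap_eq R A E, h1] at h2
    exact h2
  · have h1 : q.comap (algebraMap A E) ∈ minimalPrimes A := by
      have h2 := IsLocalization.minimalPrimes_map M E (⊥ : Ideal A)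
      rw [Ideal.map_bot] at h2
      have h3 : q ∈ Ideal.comap (algebraMap A E) ⁻¹' (⊥ : Ideal A).minimalPrimes := by
        rw [← h2]; exact hq
      exact h3
    have h4 := h.mp _ h1
    rw [Ideal.comap_comap, ← IsScalarTower.algebraMap_eq R A E] at h4
    exact h4

/-- polynomial rings over subalgebras -/
theorem HB.polynomial {R A : Type u} [CommRing R] [IsNoetherianRing R] [CommRing A]
    [Algebra R A] (N : ℕ)
    (f : A →ₐ[R] MvPolynomial (Fin N) R) (hf : Function.Injective f) : HB R A[X] (N + 1) := by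
  obtain ⟨F, hF⟩ := exists_polynomial_embedding N f hf
  exact HB.of_injective (N + 1) F hF

instance laurent_tower (R A : Type u) [CommRing R] [CommRing A] [Algebra R A] :
    IsScalarTower R A[X] (LaurentPolynomial A) := by
  refine IsScalarTower.of_algebraMap_eq ?_
  intro r
  rw [LaurentPolynomial.algebraMap_eq_toLaurent]
  have e1 : algebraMap R A[X] r = C (algebraMap R A r) := rfl
  rw [e1, Polynomial.toLaurent_C]
  rfl

/-- `A[t, 1/t]` -/
theorem HB.laurent {R A : Type u} [CommRing R] [IsNoetherianRing R] [CommRing A]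
    [Algebra R A] (N : ℕ)
    (f : A →ₐ[R] MvPolynomial (Fin N) R) (hf : Function.Injective f) :
    HB R (LaurentPolynomial A) (N + 1) := by
  have hloc : IsLocalization (Submonoid.powers (X : A[X])) (LaurentPolynomial A) :=
    LaurentPolynomial.isLocalization
  exact (HB.polynomial N f hf).of_localization (Submonoid.powers (X : A[X]))

/-- all heights are at most `d + N` -/
theorem HB.height_le {R E : Type u} [CommRing R] [IsLocalRing R] [CommRing E] [Algebra R E]
    {N : ℕ} (h : HB R E N) (d : ℕ) (hd : ringKrullDim R ≤ d) (P : Ideal E) [hP : P.IsPrime] :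
    P.height ≤ (d + N : ℕ) := by
  have hp : (P.comap (algebraMap R E)).IsPrime := Ideal.IsPrime.comap _
  have h1 := h.ht P hP
  have h2 : (P.comap (algebraMap R E)).height ≤ (d : ℕ∞) := by
    have h3 := Ideal.height_mono (le_maximalIdeal hp.ne_top)
    have h4 := IsLocalRing.maximalIdeal_height_eq_ringKrullDim (R := R)
    rw [← h4] at hd
    exact h3.trans (by exact_mod_cast hd)
  calc P.height ≤ _ := h1
    _ ≤ (d : ℕ∞) + (N : ℕ∞) := by gcongr
    _ = ((d + N : ℕ) : ℕ∞) := by push_cast; rfl

/-- a chain of primes of `E` not containing `s ∈ m` has at most `d + N` members -/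
theorem HB.chain_notMem {R E : Type u} [CommRing R] [IsLocalRing R] [CommRing E] [Algebra R E]
    {N : ℕ} (h : HB R E N) (d : ℕ) (hd : ringKrullDim R ≤ d) (s : R) (hs : s ∈ maximalIdeal R)
    {k : ℕ} {c : ℕ → Ideal E} (hc : PChain k c) (hsc : algebraMap R E s ∉ c k) :
    k + 1 ≤ d + N := by
  have hP : (c k).IsPrime := hc.1 k le_rfl
  have hp : ((c k).comap (algebraMap R E)).IsPrime := Ideal.IsPrime.comap _
  have h1 := h.ht (c k) hP
  have h2 := height_add_one_le_of_ne d hd ((c k).comap (algebraMap R E)) (by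
    intro e
    rw [← e] at hs
    exact hsc hs)
  have h3 := hc.le_height
  have h4 : ((k + 1 : ℕ) : ℕ∞) ≤ ((d + N : ℕ) : ℕ∞) := by
    calc ((k + 1 : ℕ) : ℕ∞) = (k : ℕ∞) + 1 := by push_cast; rfl
      _ ≤ (((c k).comap (algebraMap R E)).height + N) + 1 := by
          gcongr
          exact h3.trans h1
      _ = (((c k).comap (algebraMap R E)).height + 1) + N := by
          rw [add_assoc, add_comm (N : ℕ∞) 1, ← add_assoc]
      _ ≤ (d : ℕ∞) + N := by gcongr
      _ = _ := by push_cast; rfl
  exact_mod_cast h4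

/-- a chain of primes of `E` containing an `s` outside the minimal primes of `R` has at most
`d + N` members -/
theorem HB.chain_mem {R E : Type u} [CommRing R] [IsLocalRing R] [CommRing E] [Algebra R E]
    {N : ℕ} (h : HB R E N) (d : ℕ) (hd : ringKrullDim R ≤ d) (s : R)
    (hs : ∀ q ∈ minimalPrimes R, s ∉ q)
    {k : ℕ} {c : ℕ → Ideal E} (hc : PChain k c) (hsc : algebraMap R E s ∈ c 0) :
    k + 1 ≤ d + N := by
  have hP : (c k).IsPrime := hc.1 k le_rfl
  have h0 : (c 0).IsPrime := hc.1 0 (Nat.zero_le k)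
  have h1 : (1 : ℕ∞) ≤ (c 0).height := by
    rw [Order.one_le_iff_ne_zero]
    intro e
    rw [Ideal.height_eq_zero_iff] at e
    exact hs _ (h.mp _ e) hsc
  have h2 := hc.height_add_le k le_rfl
  have h3 := h.height_le d hd (c k)
  have h4 : ((k + 1 : ℕ) : ℕ∞) ≤ ((d + N : ℕ) : ℕ∞) := by
    calc ((k + 1 : ℕ) : ℕ∞) = 1 + (k : ℕ∞) := by push_cast; rw [add_comm]
      _ ≤ (c 0).height + (k : ℕ∞) := by gcongr
      _ ≤ _ := h2.trans h3
  exact_mod_cast h4

/-- `dim E / sE + 1 ≤ d + N` -/
theorem HB.dim_quotient {R E : Type u} [CommRing R] [IsLocalRing R] [CommRing E] [Algebra R E]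
    {N : ℕ} (h : HB R E N) (d : ℕ) (hd : ringKrullDim R ≤ d) (s : R)
    (hs : ∀ q ∈ minimalPrimes R, s ∉ q) (I : Ideal E) (hI : algebraMap R E s ∈ I) :
    ringKrullDim (E ⧸ I) + 1 ≤ (d + N : ℕ) := by
  have key : ∀ P : Ideal (E ⧸ I), P.IsPrime → P.height + 1 ≤ ((d + N : ℕ) : ℕ∞) := by
    intro P hP
    have h0 : 1 ≤ d + N := by
      have hp2 : (P.comap (Ideal.Quotient.mk I)).IsPrime := Ideal.IsPrime.comap _
      have := h.chain_mem d hd s hs (k := 0) (c := fun _ => P.comap (Ideal.Quotient.mk I))
        ⟨fun _ _ => hp2, fun i hi => absurd hi (Nat.not_lt_zero i)⟩ (by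
          show Ideal.Quotient.mk I (algebraMap R E s) ∈ P
          rw [Ideal.Quotient.eq_zero_iff_mem.2 hI]; exact P.zero_mem)
      omega
    have h1 : P.height ≤ ((d + N - 1 : ℕ) : ℕ∞) := by
      refine height_le_of_pchain P _ ?_
      intro k c hc hck
      have h2 := h.chain_mem d hd s hs (hc.comap (Ideal.Quotient.mk I)
        Ideal.Quotient.mk_surjective) (by
          show Ideal.Quotient.mk I (algebraMap R E s) ∈ c 0
          rw [Ideal.Quotient.eq_zero_iff_mem.2 hI]; exact (c 0).zero_mem)
      have : k ≤ d + N - 1 := by omega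
      exact_mod_cast this
    calc P.height + 1 ≤ ((d + N - 1 : ℕ) : ℕ∞) + 1 := by gcongr
      _ = ((d + N - 1 + 1 : ℕ) : ℕ∞) := by push_cast; rfl
      _ = _ := by congr 1; omega
  rcases subsingleton_or_nontrivial (E ⧸ I) with hsub | hnon
  · rw [ringKrullDim_eq_bot_of_subsingleton]
    simp
  · rcases Nat.eq_zero_or_pos (d + N) with h0 | h0
    · exfalso
      obtain ⟨M, hM⟩ := Ideal.exists_maximal (E ⧸ I)
      have := key M hM.isPrime
      rw [h0] at this
      simp at this
    · have h1 : ringKrullDim (E ⧸ I) ≤ ((d + N - 1 : ℕ) : WithBot ℕ∞) := by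
        rw [ringKrullDim_le_iff_height_le]
        intro P hP
        have h2 := key P hP
        have h3 : P.height ≤ ((d + N - 1 : ℕ) : ℕ∞) := by
          have e : ((d + N : ℕ) : ℕ∞) = ((d + N - 1 : ℕ) : ℕ∞) + 1 := by
            have : d + N = (d + N - 1) + 1 := by omega
            rw [this]; push_cast; rfl
          rw [e] at h2
          exact (ENat.add_le_add_iff_right (by simp)).1 h2
        exact WithBot.coe_le_coe.2 h3
      calc ringKrullDim (E ⧸ I) + 1 ≤ ((d + N - 1 : ℕ) : WithBot ℕ∞) + 1 := by gcongr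
        _ = ((d + N - 1 + 1 : ℕ) : WithBot ℕ∞) := by push_cast; rfl
        _ = _ := by congr 1; omega

end Pool.Agent.Helper78.GU
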