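import Mathlib

/-!
# Project GU (MP_b1e6de), block B1a: elementary moves on unimodular rows

`Um v`: the row `v` is unimodular. `Eqv v w`: `v` and `w` are in the same `GL`-orbit.
`RE v w`: `v` and `w` are in the same elementary orbit.
-/

set_option autoImplicit false

namespace Pool.Agent.Helper78.GU

open Finset Matrix

universe u v

variable {A : Type u} [CommRing A] {ι : Type v} [Fintype ι] [DecidableEq ι]

/-- unimodular rows -/
def Um (v : ι → A) : Prop := ∃ a : ι → A, ∑ i, a i * v i = 1

/-- the same orbit under the general linear group -/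
def Eqv (v w : ι → A) : Prop := ∃ g : Matrix ι ι A, IsUnit g.det ∧ v ᵥ* g = w

omit [Fintype ι] in
/-- one elementary step: add a multiple of one coordinate to another one -/
def Step (v w : ι → A) : Prop :=
  ∃ (i j : ι) (c : A), i ≠ j ∧ w = Function.update v j (v j + c * v i)

omit [Fintype ι] in
/-- the same orbit under the elementary group -/
def RE (v w : ι → A) : Prop := Relation.ReflTransGen Step v w

omit [Fintype ι] in
theorem Step.symm {v w : ι → A} (h : Step v w) : Step w v := by
  obtain ⟨i, j, c, hij, rfl⟩ := h
  refine ⟨i, j, -c, hij, ?_⟩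
  rw [Function.update_self, Function.update_of_ne hij, Function.update_idem]
  have : v j + c * v i + -c * v i = v j := by ring
  rw [this, Function.update_eq_self]

omit [Fintype ι] in
theorem RE.refl (v : ι → A) : RE v v := Relation.ReflTransGen.refl

omit [Fintype ι] in
theorem RE.trans {v w x : ι → A} (h : RE v w) (h' : RE w x) : RE v x :=
  Relation.ReflTransGen.trans h h'

omit [Fintype ι] in
theorem RE.symm {v w : ι → A} (h : RE v w) : RE w v := by
  induction h with
  | refl => exact RE.refl _
  | tail _ hs ih => exact (Relation.ReflTransGen.single hs.symm).trans ih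

omit [Fintype ι] in
theorem RE.of_eq {v w : ι → A} (h : v = w) : RE v w := h ▸ RE.refl v

omit [Fintype ι] in
theorem RE.add (v : ι → A) {i j : ι} (hij : i ≠ j) (c : A) :
    RE v (Function.update v j (v j + c * v i)) :=
  Relation.ReflTransGen.single ⟨i, j, c, hij, rfl⟩

theorem Eqv.refl (v : ι → A) : Eqv v v := ⟨1, by simp, by simp⟩

theorem Eqv.trans {v w x : ι → A} (h : Eqv v w) (h' : Eqv w x) : Eqv v x := by
  obtain ⟨g, hg, rfl⟩ := h
  obtain ⟨g', hg', rfl⟩ := h'
  exact ⟨g * g', by rw [det_mul]; exact hg.mul hg', by rw [vecMul_vecMul]⟩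

theorem Eqv.symm {v w : ι → A} (h : Eqv v w) : Eqv w v := by
  obtain ⟨g, hg, rfl⟩ := h
  refine ⟨g⁻¹, ?_, ?_⟩
  · exact g.isUnit_nonsing_inv_det hg
  · rw [vecMul_vecMul, g.mul_nonsing_inv hg, vecMul_one]

theorem Eqv.of_step {v w : ι → A} (h : Step v w) :
    ∃ g : Matrix ι ι A, g.det = 1 ∧ v ᵥ* g = w := by
  obtain ⟨i, j, c, hij, rfl⟩ := h
  refine ⟨Matrix.transvection i j c, Matrix.det_transvection_of_ne _ _ hij c, ?_⟩
  unfold Matrix.transvection
  rw [Matrix.vecMul_add, Matrix.vecMul_one]
  funext k
  rw [Pi.add_apply]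
  by_cases hk : k = j
  · subst hk
    rw [Function.update_self]
    congr 1
    simp only [Matrix.vecMul, dotProduct, Matrix.single_apply]
    rw [Finset.sum_eq_single i]
    · simp [mul_comm]
    · intro b _ hb
      simp [Ne.symm hb]
    · simp
  · rw [Function.update_of_ne hk]
    have : (v ᵥ* Matrix.single i j c) k = 0 := by
      simp only [Matrix.vecMul, dotProduct, Matrix.single_apply]
      apply Finset.sum_eq_zero
      intro b _
      simp [Ne.symm hk]
    rw [this, add_zero]

/-- elementary orbits lie in the orbits of the special linear group -/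
theorem RE.sl {v w : ι → A} (h : RE v w) : ∃ g : Matrix ι ι A, g.det = 1 ∧ v ᵥ* g = w := by
  induction h with
  | refl => exact ⟨1, by simp, by simp⟩
  | tail _ hs ih =>
    obtain ⟨g, hg, h1⟩ := ih
    obtain ⟨g', hg', h2⟩ := Eqv.of_step hs
    exact ⟨g * g', by rw [det_mul, hg, hg', one_mul], by rw [← vecMul_vecMul, h1, h2]⟩

theorem RE.eqv {v w : ι → A} (h : RE v w) : Eqv v w := by
  obtain ⟨g, hg, h1⟩ := h.sl
  exact ⟨g, by rw [hg]; exact isUnit_one, h1⟩

theorem Um.of_eqv {v w : ι → A} (h : Eqv v w) (hv : Um v) : Um w := by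
  obtain ⟨g, hg, rfl⟩ := h
  obtain ⟨a, ha⟩ := hv
  refine ⟨g⁻¹ *ᵥ a, ?_⟩
  have h1 : (v ᵥ* g) ⬝ᵥ (g⁻¹ *ᵥ a) = 1 := by
    rw [← Matrix.dotProduct_mulVec, Matrix.mulVec_mulVec, g.mul_nonsing_inv hg, Matrix.one_mulVec]
    rw [dotProduct_comm]
    exact ha
  rw [← h1, dotProduct_comm]
  rfl

theorem Um.of_re {v w : ι → A} (h : RE v w) (hv : Um v) : Um w := hv.of_eqv h.eqv

omit [Fintype ι] in
/-- add a combination of other coordinates to the coordinate `j` -/
theorem RE.add_sum (v : ι → A) (j : ι) (x : A) (c : ι → A) (s : Finset ι) (hj : j ∉ s) :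
    RE (Function.update v j x) (Function.update v j (x + ∑ i ∈ s, c i * v i)) := by
  induction s using Finset.induction_on with
  | empty => simpa using RE.refl _
  | insert a s ha ih =>
    have haj : a ≠ j := fun h => hj (h ▸ Finset.mem_insert_self _ _)
    have hj' : j ∉ s := fun h => hj (Finset.mem_insert_of_mem h)
    refine (ih hj').trans ?_
    have h1 := RE.add (Function.update v j (x + ∑ i ∈ s, c i * v i)) haj (c a)
    rw [Function.update_self, Function.update_of_ne haj, Function.update_idem] at h1
    refine h1.trans (RE.of_eq ?_)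
    rw [Finset.sum_insert ha]
    congr 1
    ring

theorem RE.add_erase (v : ι → A) (j : ι) (x : A) (c : ι → A) :
    RE (Function.update v j x)
      (Function.update v j (x + ∑ i ∈ univ.erase j, c i * v i)) :=
  RE.add_sum v j x c _ (by simp)

omit [Fintype ι] in
theorem RE.add_one (v : ι → A) {i j : ι} (hij : i ≠ j) (x c : A) :
    RE (Function.update v j x) (Function.update v j (x + c * v i)) := by
  have h := RE.add (Function.update v j x) hij c
  rwa [Function.update_self, Function.update_of_ne hij, Function.update_idem] at h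

/-- `y + nu ~ (1 + nu a_j) y` -/
theorem RE.absorb (v a : ι → A) (h : ∑ i, a i * v i = 1) (j : ι) (x nu : A) :
    RE (Function.update v j (x + nu)) (Function.update v j (x + nu * a j * v j)) := by
  have h1 := RE.add_erase v j (x + nu) (fun i => -(nu * a i))
  refine h1.trans (RE.of_eq ?_)
  congr 1
  have h2 : ∑ i ∈ univ.erase j, -(nu * a i) * v i = -(nu * (1 - a j * v j)) := by
    have h3 : ∑ i ∈ univ.erase j, a i * v i = 1 - a j * v j := by
      rw [← h, ← Finset.add_sum_erase univ _ (Finset.mem_univ j)]
      ring
    rw [← h3, Finset.mul_sum, ← Finset.sum_neg_distrib]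
    exact Finset.sum_congr rfl fun i _ => by ring
  rw [h2]
  ring

section two

variable {v : ι → A} {i j k : ι}

omit [Fintype ι] in
private theorem opA (hjk : j ≠ k) (c p q : A) :
    RE (Function.update (Function.update v j p) k q)
      (Function.update (Function.update v j p) k (q + c * p)) := by
  have h := RE.add_one (Function.update v j p) hjk q c
  rwa [Function.update_self] at h

omit [Fintype ι] in
private theorem opB (hjk : j ≠ k) (c p q : A) :
    RE (Function.update (Function.update v j p) k q)
      (Function.update (Function.update v j (p + c * q)) k q) := by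
  rw [Function.update_comm hjk, Function.update_comm hjk]
  exact opA hjk.symm c q p

omit [Fintype ι] in
private theorem opD (hij : i ≠ j) (hik : i ≠ k) (c p q : A) :
    RE (Function.update (Function.update v j p) k q)
      (Function.update (Function.update v j p) k (q + c * v i)) := by
  have h := RE.add_one (Function.update v j p) hik q c
  rwa [Function.update_of_ne hij] at h

omit [Fintype ι] in
private theorem opC (hij : i ≠ j) (hik : i ≠ k) (hjk : j ≠ k) (c p q : A) :
    RE (Function.update (Function.update v j p) k q)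
      (Function.update (Function.update v j (p + c * v i)) k q) := by
  rw [Function.update_comm hjk, Function.update_comm hjk]
  exact opD hik hij c q p

omit [Fintype ι] in
/-- Whitehead: `(N, u y, z, ..) ~ (N, y, u z, ..)` if `u` is invertible modulo `N` -/
theorem RE.whitehead (v : ι → A) {i j k : ι} (hij : i ≠ j) (hik : i ≠ k) (hjk : j ≠ k)
    (u w c : A) (h : u * w + v i * c = 1) :
    RE (Function.update v j (u * v j)) (Function.update v k (u * v k)) := by
  have e0 : Function.update v j (u * v j)
      = Function.update (Function.update v j (u * v j)) k (v k) := by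
    rw [eq_comm, Function.update_eq_iff]
    exact ⟨(Function.update_of_ne hjk.symm _ _).symm, fun _ _ => rfl⟩
  have e1 : Function.update v k (u * v k)
      = Function.update (Function.update v j (v j)) k (u * v k) := by
    rw [Function.update_eq_self]
  rw [e0, e1]
  set y := v j
  set z := v k
  have s1 := opA (v := v) hjk w (u * y) z
  have s2 := opB (v := v) hjk (-u) (u * y) (z + w * (u * y))
  have s3 := opA (v := v) hjk w (u * y + -u * (z + w * (u * y))) (z + w * (u * y))
  have s4 := opA (v := v) hjk (-1) (u * y + -u * (z + w * (u * y)))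
    (z + w * (u * y) + w * (u * y + -u * (z + w * (u * y))))
  have s5 := opB (v := v) hjk 1 (u * y + -u * (z + w * (u * y)))
    (z + w * (u * y) + w * (u * y + -u * (z + w * (u * y)))
      + -1 * (u * y + -u * (z + w * (u * y))))
  have s6 := opA (v := v) hjk (-1)
    (u * y + -u * (z + w * (u * y)) + 1 * (z + w * (u * y)
      + w * (u * y + -u * (z + w * (u * y))) + -1 * (u * y + -u * (z + w * (u * y)))))
    (z + w * (u * y) + w * (u * y + -u * (z + w * (u * y)))
      + -1 * (u * y + -u * (z + w * (u * y))))
  refine s1.trans (s2.trans (s3.trans (s4.trans (s5.trans (s6.trans ?_)))))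
  refine (opC (v := v) hij hik hjk (c * (1 - u * w) * y - c * z) _ _).trans ?_
  refine (opD (v := v) hij hik (c * u * y) _ _).trans (RE.of_eq ?_)
  have p1 : u * y + -u * (z + w * (u * y)) + 1 * (z + w * (u * y)
      + w * (u * y + -u * (z + w * (u * y))) + -1 * (u * y + -u * (z + w * (u * y))))
      + (c * (1 - u * w) * y - c * z) * v i = y := by
    linear_combination ((1 - u * w) * y - z) * h
  have p2 : z + w * (u * y) + w * (u * y + -u * (z + w * (u * y)))
      + -1 * (u * y + -u * (z + w * (u * y)))
      + -1 * (u * y + -u * (z + w * (u * y)) + 1 * (z + w * (u * y)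
      + w * (u * y + -u * (z + w * (u * y))) + -1 * (u * y + -u * (z + w * (u * y)))))
      + c * u * y * v i = u * z := by
    linear_combination (u * y) * h
  rw [p1, p2]

end two

/-- inverse modulo `N` of one plus nilpotent -/
theorem inv_mod_nil {N nu r : A} {m : ℕ} (h : N ∣ nu ^ m) :
    ∃ w c : A, (1 + nu * r) * w + N * c = 1 := by
  obtain ⟨t, ht⟩ := h
  refine ⟨∑ i ∈ range m, (-(nu * r)) ^ i, t * ((-1) ^ m * r ^ m), ?_⟩
  have h1 := geom_sum_mul (-(nu * r)) m
  have h2 : (-(nu * r)) ^ m = N * (t * ((-1) ^ m * r ^ m)) := by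
    have : (-(nu * r)) ^ m = (-1) ^ m * (nu ^ m * r ^ m) := by
      rw [← mul_pow, ← mul_pow]
      congr 1
      ring
    rw [this, ht]
    ring
  rw [← h2]
  linear_combination -h1

/-- `(N, y + nu, z, ..) ~ (N, y, z, ..)` for `nu` nilpotent modulo `N` -/
theorem RE.nil (v : ι → A) (hv : Um v) {i j k : ι} (hij : i ≠ j) (hik : i ≠ k) (hjk : j ≠ k)
    (nu : A) (m : ℕ) (h : v i ∣ nu ^ m) : RE (Function.update v j (v j + nu)) v := by
  obtain ⟨a, ha⟩ := hv
  have s1 := RE.absorb v a ha j (v j) nu
  have e1 : v j + nu * a j * v j = (1 + nu * a j) * v j := by ring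
  rw [e1] at s1
  obtain ⟨w, c, hw⟩ := inv_mod_nil (r := a j) h
  have s2 := RE.whitehead v hij hik hjk _ w c hw
  have e2 : (1 + nu * a j) * v k = v k + nu * a j * v k := by ring
  rw [e2] at s2
  have s3 := RE.absorb v a ha k (v k) (nu * a j * v k)
  have e3 : v k + nu * a j * v k * a k * v k = (1 + nu * (a j * a k * v k)) * v k := by ring
  rw [e3] at s3
  obtain ⟨w', c', hw'⟩ := inv_mod_nil (r := a j * a k * v k) h
  have s4 := (RE.whitehead v hij hik hjk _ w' c' hw').symm
  have s5 := RE.add_one v hjk.symm ((1 + nu * (a j * a k * v k)) * v j) (-(nu * a j * a k * v j))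
  have e5 : (1 + nu * (a j * a k * v k)) * v j + -(nu * a j * a k * v j) * v k = v j := by ring
  rw [e5, Function.update_eq_self] at s5
  exact s1.trans (s2.trans (s3.trans (s4.trans s5)))

/-- exponent move `(x^n, y, z, ..) ~ (x, y^n, z, ..)` -/
theorem RE.expo (v : ι → A) {i j k : ι} (hij : i ≠ j) (hik : i ≠ k) (hjk : j ≠ k) (n : ℕ)
    (x y : A) (hv : Um (Function.update (Function.update v i (x ^ n)) j y)) :
    RE (Function.update (Function.update v i (x ^ n)) j y)
      (Function.update (Function.update v i x) j (y ^ n)) := by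
  -- first move
  have hd1 : y ∣ (x + y) ^ n - x ^ n := by
    have := sub_dvd_pow_sub_pow (x + y) x n
    have e : x + y - x = y := by ring
    rwa [e] at this
  obtain ⟨t, ht⟩ := hd1
  have s1 : RE (Function.update (Function.update v i (x ^ n)) j y)
      (Function.update (Function.update v i ((x + y) ^ n)) j y) := by
    have h := opB (v := v) hij t (x ^ n) y
    have e : x ^ n + t * y = (x + y) ^ n := by linear_combination -ht
    rwa [e] at h
  have hu1 := Um.of_re s1 hv
  -- second move
  set w : ι → A := Function.update (Function.update v i ((x + y) ^ n)) j y with hw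
  have wi : w i = (x + y) ^ n := by
    rw [hw, Function.update_of_ne hij, Function.update_self]
  have wj : w j = y := by rw [hw, Function.update_self]
  have s2 : RE w (Function.update w j (-x)) := by
    have hu2 : Um (Function.update w j (w j)) := by rwa [Function.update_eq_self]
    have h := RE.nil w hu1 hij hik hjk (-(x + y)) n (by
      rw [wi, neg_pow]
      exact Dvd.intro_left _ rfl)
    have e : w j + -(x + y) = -x := by rw [wj]; ring
    rw [e] at h
    exact h.symm
  have e2 : Function.update w j (-x) = Function.update (Function.update v i ((x + y) ^ n)) j (-x) := by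
    rw [hw, Function.update_idem]
  rw [e2] at s2
  -- third move
  have hd3 : x ∣ (x + y) ^ n - y ^ n := by
    have := sub_dvd_pow_sub_pow (x + y) y n
    have e : x + y - y = x := by ring
    rwa [e] at this
  obtain ⟨t', ht'⟩ := hd3
  have s3 : RE (Function.update (Function.update v i ((x + y) ^ n)) j (-x))
      (Function.update (Function.update v i (y ^ n)) j (-x)) := by
    have h := opB (v := v) hij t' ((x + y) ^ n) (-x)
    have e : (x + y) ^ n + t' * -x = y ^ n := by linear_combination ht'
    rwa [e] at h
  -- swap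
  have s4 : RE (Function.update (Function.update v i (y ^ n)) j (-x))
      (Function.update (Function.update v i x) j (y ^ n)) := by
    have h1 := opA (v := v) hij 1 (y ^ n) (-x)
    have h2 := opB (v := v) hij (-1) (y ^ n) (-x + 1 * y ^ n)
    have h3 := opA (v := v) hij 1 (y ^ n + -1 * (-x + 1 * y ^ n)) (-x + 1 * y ^ n)
    refine h1.trans (h2.trans (h3.trans (RE.of_eq ?_)))
    have e1 : y ^ n + -1 * (-x + 1 * y ^ n) = x := by ring
    have e2 : -x + 1 * y ^ n + 1 * (y ^ n + -1 * (-x + 1 * y ^ n)) = y ^ n := by ring
    rw [e2, e1]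
  exact s1.trans (s2.trans (s3.trans s4))

end Pool.Agent.Helper78.GU
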