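import Pool.Agent.Helper78.GU.Good

/-! # Project GU: heights in subalgebras of polynomial rings (statement 0.1) (helper78) -/

set_option autoImplicit false

namespace Pool.Agent.Helper78.GU

open Polynomial

universe u

/-- minimal primes of a subalgebra of `R[Y_1..Y_N]`: the residue domain has transcendence degree
at most `N` over the residue domain of `R` -/
theorem trdeg_quotient_le {R A : Type u} [CommRing R] [CommRing A]
    [Algebra R A] (N : ℕ) (f : A →ₐ[R] MvPolynomial (Fin N) R) (hf : Function.Injective f)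
    (q : Ideal A) (hq : q ∈ minimalPrimes A) :
    Algebra.trdeg (R ⧸ q.under R) (A ⧸ q) ≤ (N : Cardinal.{u}) := by
  have hqp : q.IsPrime := hq.1.1
  have hQp : (q.under R).IsPrime := Ideal.IsPrime.comap _
  obtain ⟨M, hM, hMq⟩ := Ideal.exists_comap_eq_of_mem_minimalPrimes_of_injective
    (f := (f : A →+* MvPolynomial (Fin N) R)) hf q hq
  set φ : MvPolynomial (Fin N) R →+* MvPolynomial (Fin N) (R ⧸ q.under R) :=
    MvPolynomial.map (Ideal.Quotient.mk (q.under R)) with hφ
  have hkerφ : RingHom.ker φ ≤ M := by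
    rw [hφ, MvPolynomial.ker_map, Ideal.mk_ker, Ideal.map_le_iff_le_comap]
    intro a ha
    have h1 : algebraMap R A a ∈ q := ha
    rw [← hMq] at h1
    have h2 : f (algebraMap R A a) ∈ M := h1
    rw [f.commutes] at h2
    exact h2
  set g : A →+* MvPolynomial (Fin N) (R ⧸ q.under R) :=
    φ.comp (f : A →+* MvPolynomial (Fin N) R) with hg
  have hkerg : RingHom.ker g = q := by
    have h1 : RingHom.ker g ≤ q := by
      rw [hg, ← RingHom.comap_ker]
      exact (Ideal.comap_mono hkerφ).trans hMq.le
    have h2 : (RingHom.ker g).IsPrime := RingHom.ker_isPrime g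
    exact le_antisymm h1 (hq.2 ⟨h2, bot_le⟩ h1)
  have hgC : ∀ a : R, g (algebraMap R A a) = MvPolynomial.C (Ideal.Quotient.mk (q.under R) a) := by
    intro a
    have : g (algebraMap R A a) = φ (f (algebraMap R A a)) := rfl
    rw [this, f.commutes, MvPolynomial.algebraMap_eq, hφ, MvPolynomial.map_C]
  set G : (A ⧸ q) →+* MvPolynomial (Fin N) (R ⧸ q.under R) :=
    Ideal.Quotient.lift q g (fun a ha => by rw [← hkerg] at ha; exact ha) with hG
  have hGinj : Function.Injective G := by
    rw [RingHom.injective_iff_ker_eq_bot, eq_bot_iff]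
    intro y hy
    obtain ⟨a, rfl⟩ := Ideal.Quotient.mk_surjective y
    have h1 : g a = 0 := by
      have : G (Ideal.Quotient.mk q a) = 0 := hy
      rwa [hG, Ideal.Quotient.lift_mk] at this
    have h2 : a ∈ q := by rw [← hkerg]; exact h1
    rw [Ideal.mem_bot]
    exact Ideal.Quotient.eq_zero_iff_mem.2 h2
  let G' : (A ⧸ q) →ₐ[R ⧸ q.under R] MvPolynomial (Fin N) (R ⧸ q.under R) :=
    { G with
      commutes' := by
        intro y
        obtain ⟨a, rfl⟩ := Ideal.Quotient.mk_surjective y
        have e1 : algebraMap (R ⧸ q.under R) (A ⧸ q) (Ideal.Quotient.mk (q.under R) a) =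
            Ideal.Quotient.mk q (algebraMap R A a) := rfl
        show G (algebraMap (R ⧸ q.under R) (A ⧸ q) (Ideal.Quotient.mk (q.under R) a)) = _
        rw [e1, hG, Ideal.Quotient.lift_mk, hgC]
        rfl }
  have h := trdeg_le_of_injective G' hGinj
  simpa using h

theorem height_le_of_minimal {R A : Type u} [CommRing R] [IsNoetherianRing R] [CommRing A]
    [Algebra R A] [Algebra.FiniteType R A] (N : ℕ)
    (htr : ∀ q ∈ minimalPrimes A, Algebra.trdeg (R ⧸ q.under R) (A ⧸ q) ≤ (N : Cardinal.{u}))
    (P : Ideal A) [hP : P.IsPrime] :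
    P.height ≤ (P.comap (algebraMap R A)).height + N := by
  refine height_le_of_pchain P _ ?_
  intro k c hc hck
  have hc0 : (c 0).IsPrime := hc.1 0 (Nat.zero_le k)
  obtain ⟨q, hq, hqc⟩ := Ideal.exists_minimalPrimes_le (I := (⊥ : Ideal A)) (J := c 0) bot_le
  have hqm : q ∈ minimalPrimes A := hq
  have hqp : q.IsPrime := hq.1.1
  have hqP : q ≤ P := by
    rw [← hck]; exact hqc.trans (hc.zero_le k le_rfl)
  have hQp : (q.under R).IsPrime := Ideal.IsPrime.comap _
  have hfaith : FaithfulSMul (R ⧸ q.under R) (A ⧸ q) := by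
    rw [faithfulSMul_iff_algebraMap_injective]
    exact Ideal.algebraMap_quotient_injective
  have hft1 : Algebra.FiniteType R (A ⧸ q) := inferInstance
  have hft2 : Algebra.FiniteType (R ⧸ q.under R) (A ⧸ q) :=
    Algebra.FiniteType.of_restrictScalars_finiteType R (R ⧸ q.under R) (A ⧸ q)
  have hgood : Good (R ⧸ q.under R) (A ⧸ q) := Good.of_finiteType
  have hker : RingHom.ker (Ideal.Quotient.mk q) ≤ c 0 := by
    rw [Ideal.mk_ker]; exact hqc
  have hmap := hc.map (Ideal.Quotient.mk q) Ideal.Quotient.mk_surjective hker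
  have h1 := hmap.le_height
  simp only [hck] at h1
  have hPm : (P.map (Ideal.Quotient.mk q)).IsPrime :=
    Ideal.map_isPrime_of_surjective Ideal.Quotient.mk_surjective (by rw [Ideal.mk_ker]; exact hqP)
  have h2 := hgood _ hPm
  have hp2 : ((P.map (Ideal.Quotient.mk q)).comap
      (algebraMap (R ⧸ q.under R) (A ⧸ q))).IsPrime := Ideal.IsPrime.comap _
  have h3 := height_le_comap_of_surjective (Ideal.Quotient.mk (q.under R))
    Ideal.Quotient.mk_surjective
    ((P.map (Ideal.Quotient.mk q)).comap (algebraMap (R ⧸ q.under R) (A ⧸ q)))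
  have h4 : ((P.map (Ideal.Quotient.mk q)).comap
      (algebraMap (R ⧸ q.under R) (A ⧸ q))).comap (Ideal.Quotient.mk (q.under R)) =
      P.comap (algebraMap R A) := by
    have e1 : (P.map (Ideal.Quotient.mk q)).comap (Ideal.Quotient.mk q) = P := by
      rw [Ideal.comap_map_of_surjective _ Ideal.Quotient.mk_surjective, ← RingHom.ker_eq_comap_bot,
        Ideal.mk_ker]
      exact sup_eq_left.2 hqP
    calc _ = ((P.map (Ideal.Quotient.mk q)).comap (Ideal.Quotient.mk q)).comap
          (algebraMap R A) := by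
          rw [Ideal.comap_comap, Ideal.comap_comap]
          rfl
      _ = _ := by rw [e1]
  rw [h4] at h3
  have h5 : Cardinal.toENat (Algebra.trdeg (R ⧸ q.under R) (A ⧸ q)) ≤ (N : ℕ∞) := by
    have := Cardinal.toENat.monotone' (htr q hqm)
    simpa using this
  calc (k : ℕ∞) ≤ _ := h1
    _ ≤ _ := h2
    _ ≤ _ := add_le_add h3 h5

/-- (0.1), finitely generated case -/
theorem height_le_of_injective_fg {R A : Type u} [CommRing R] [IsNoetherianRing R] [CommRing A]
    [Algebra R A] [Algebra.FiniteType R A] (N : ℕ)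
    (f : A →ₐ[R] MvPolynomial (Fin N) R) (hf : Function.Injective f)
    (P : Ideal A) [hP : P.IsPrime] :
    P.height ≤ (P.comap (algebraMap R A)).height + N :=
  height_le_of_minimal N (fun q hq => trdeg_quotient_le N f hf q hq) P

end Pool.Agent.Helper78.GU
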