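import Pool.Agent.Helper78.GU.SubHeight

/-! # Project GU: heights in subalgebras of polynomial rings, general case (helper78) -/

set_option autoImplicit false

namespace Pool.Agent.Helper78.GU

open Polynomial

universe u

/-- (0.1) `A ⊂ R[Y_1..Y_N]` an arbitrary `R`-subalgebra (`R` Noetherian):
`height P ≤ height (P ∩ R) + N`. -/
theorem height_le_of_injective {R A : Type u} [CommRing R] [IsNoetherianRing R] [CommRing A]
    [Algebra R A] (N : ℕ)
    (f : A →ₐ[R] MvPolynomial (Fin N) R) (hf : Function.Injective f)
    (P : Ideal A) [hP : P.IsPrime] :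
    P.height ≤ (P.comap (algebraMap R A)).height + N := by
  classical
  refine height_le_of_pchain P _ ?_
  intro k c hc hck
  have hx : ∀ i, ∃ x : A, i < k → x ∈ c (i + 1) ∧ x ∉ c i := by
    intro i
    by_cases hi : i < k
    · obtain ⟨x, hx1, hx2⟩ := SetLike.exists_of_lt (hc.2 i hi)
      exact ⟨x, fun _ => ⟨hx1, hx2⟩⟩
    · exact ⟨0, fun h => absurd h hi⟩
  choose x hx using hx
  set S : Subalgebra R A := Algebra.adjoin R (((Finset.range k).image x : Finset A) : Set A)
    with hS
  have hft : Algebra.FiniteType R S := by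
    rw [← Subalgebra.fg_iff_finiteType]
    exact ⟨(Finset.range k).image x, rfl⟩
  have hxS : ∀ i, i < k → x i ∈ S := by
    intro i hi
    apply Algebra.subset_adjoin
    simp only [Finset.coe_image, Set.mem_image, Finset.mem_coe, Finset.mem_range]
    exact ⟨i, hi, rfl⟩
  have hch : PChain k (fun i => (c i).comap (algebraMap S A)) := by
    refine ⟨fun i hi => ?_, fun i hi => ?_⟩
    · have := hc.1 i hi
      exact Ideal.IsPrime.comap _
    · refine lt_of_le_of_ne (Ideal.comap_mono (hc.2 i hi).le) ?_
      intro e
      have h1 : (⟨x i, hxS i hi⟩ : S) ∈ (c (i + 1)).comap (algebraMap S A) := (hx i hi).1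
      have e' : (c i).comap (algebraMap S A) = (c (i + 1)).comap (algebraMap S A) := e
      rw [← e'] at h1
      exact (hx i hi).2 h1
  have h1 := hch.le_height
  simp only [hck] at h1
  have hPS : (P.comap (algebraMap S A)).IsPrime := Ideal.IsPrime.comap _
  have h2 := height_le_of_injective_fg N (f.comp S.val)
    (hf.comp Subtype.val_injective) (P.comap (algebraMap S A))
  have e : (P.comap (algebraMap S A)).comap (algebraMap R S) = P.comap (algebraMap R A) := by
    rw [Ideal.comap_comap, ← IsScalarTower.algebraMap_eq R S A]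
  rw [e] at h2
  exact h1.trans h2

/-- (0.1) for subalgebras -/
theorem height_le_of_subalgebra {R : Type u} [CommRing R] [IsNoetherianRing R] (N : ℕ)
    (A : Subalgebra R (MvPolynomial (Fin N) R)) (P : Ideal A) [hP : P.IsPrime] :
    P.height ≤ (P.comap (algebraMap R A)).height + N :=
  height_le_of_injective N A.val Subtype.val_injective P

/-- the same for localisations `E` of `A` -/
theorem height_le_of_localization {R A E : Type u} [CommRing R] [IsNoetherianRing R] [CommRing A]
    [Algebra R A] [CommRing E] [Algebra A E] [Algebra R E] [IsScalarTower R A E] (N : ℕ)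
    (f : A →ₐ[R] MvPolynomial (Fin N) R) (hf : Function.Injective f) (M : Submonoid A)
    [IsLocalization M E] (P : Ideal E) [hP : P.IsPrime] :
    P.height ≤ (P.comap (algebraMap R E)).height + N := by
  have h1 : (P.comap (algebraMap A E)).height = P.height := IsLocalization.height_under M P
  have hp : (P.comap (algebraMap A E)).IsPrime := Ideal.IsPrime.comap _
  have h2 := height_le_of_injective N f hf (P.comap (algebraMap A E))
  rw [Ideal.comap_comap, ← IsScalarTower.algebraMap_eq R A E, h1] at h2
  exact h2

/-- the embedding `A[X] → R[Y_1..Y_{N+1}]` -/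
theorem exists_polynomial_embedding {R A : Type u} [CommRing R] [CommRing A]
    [Algebra R A] (N : ℕ)
    (f : A →ₐ[R] MvPolynomial (Fin N) R) (hf : Function.Injective f) :
    ∃ F : A[X] →ₐ[R] MvPolynomial (Fin (N + 1)) R, Function.Injective F := by
  refine ⟨((MvPolynomial.finSuccEquiv R N).symm : _ →ₐ[R] _).comp (Polynomial.mapAlgHom f), ?_⟩
  intro a b hab
  have h1 : (Polynomial.mapAlgHom f) a = (Polynomial.mapAlgHom f) b :=
    (MvPolynomial.finSuccEquiv R N).symm.injective hab
  exact Polynomial.map_injective (f : A →+* MvPolynomial (Fin N) R) hf h1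

theorem height_le_of_polynomial {R A : Type u} [CommRing R] [IsNoetherianRing R] [CommRing A]
    [Algebra R A] (N : ℕ)
    (f : A →ₐ[R] MvPolynomial (Fin N) R) (hf : Function.Injective f)
    (P : Ideal A[X]) [hP : P.IsPrime] :
    P.height ≤ (P.comap (algebraMap R A[X])).height + (N + 1 : ℕ) := by
  obtain ⟨F, hF⟩ := exists_polynomial_embedding N f hf
  exact height_le_of_injective (N + 1) F hF P

/-- heights in `A[t, 1/t]` -/
theorem height_le_of_laurent {R A : Type u} [CommRing R] [IsNoetherianRing R] [CommRing A]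
    [Algebra R A] (N : ℕ)
    (f : A →ₐ[R] MvPolynomial (Fin N) R) (hf : Function.Injective f)
    (P : Ideal (LaurentPolynomial A)) [hP : P.IsPrime] :
    P.height ≤ (P.comap (algebraMap R (LaurentPolynomial A))).height + (N + 1 : ℕ) := by
  obtain ⟨F, hF⟩ := exists_polynomial_embedding N f hf
  have hloc : IsLocalization (Submonoid.powers (X : A[X])) (LaurentPolynomial A) :=
    LaurentPolynomial.isLocalization
  have htow : IsScalarTower R A[X] (LaurentPolynomial A) := by
    refine IsScalarTower.of_algebraMap_eq ?_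
    intro r
    rw [LaurentPolynomial.algebraMap_eq_toLaurent]
    have e1 : algebraMap R A[X] r = C (algebraMap R A r) := rfl
    rw [e1, Polynomial.toLaurent_C]
    rfl
  exact height_le_of_localization (N + 1) F hF (Submonoid.powers (X : A[X])) P

/-- a minimal prime of `A ⊂ R[Y_1..Y_N]` contracts to a minimal prime of `R` -/
theorem under_mem_minimalPrimes {R A : Type u} [CommRing R] [CommRing A]
    [Algebra R A] (N : ℕ)
    (f : A →ₐ[R] MvPolynomial (Fin N) R) (hf : Function.Injective f) (q : Ideal A)
    (hq : q ∈ minimalPrimes A) : q.comap (algebraMap R A) ∈ minimalPrimes R := by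
  have hqp : q.IsPrime := hq.1.1
  have hQp : (q.comap (algebraMap R A)).IsPrime := Ideal.IsPrime.comap _
  obtain ⟨M, hM, hMq⟩ := Ideal.exists_comap_eq_of_mem_minimalPrimes_of_injective
    (f := (f : A →+* MvPolynomial (Fin N) R)) hf q hq
  obtain ⟨Q, hQ, hQle⟩ := Ideal.exists_minimalPrimes_le (I := (⊥ : Ideal R))
    (J := q.comap (algebraMap R A)) bot_le
  have hQprime : Q.IsPrime := hQ.1.1
  have hker : RingHom.ker (MvPolynomial.map (σ := Fin N) (Ideal.Quotient.mk Q)) ≤ M := by
    rw [MvPolynomial.ker_map, Ideal.mk_ker, Ideal.map_le_iff_le_comap]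
    intro a ha
    have h1 : algebraMap R A a ∈ q := hQle ha
    rw [← hMq] at h1
    have h2 : f (algebraMap R A a) ∈ M := h1
    rw [f.commutes] at h2
    exact h2
  have hkp : (RingHom.ker (MvPolynomial.map (σ := Fin N) (Ideal.Quotient.mk Q))).IsPrime :=
    RingHom.ker_isPrime _
  have hkp2 : ((RingHom.ker (MvPolynomial.map (σ := Fin N) (Ideal.Quotient.mk Q))).comap
      (f : A →+* MvPolynomial (Fin N) R)).IsPrime := Ideal.IsPrime.comap _
  have hle : (RingHom.ker (MvPolynomial.map (σ := Fin N) (Ideal.Quotient.mk Q))).comap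
      (f : A →+* MvPolynomial (Fin N) R) ≤ q := (Ideal.comap_mono hker).trans hMq.le
  have hge := hq.2 ⟨hkp2, bot_le⟩ hle
  have hfin : q.comap (algebraMap R A) ≤ Q := by
    intro a ha
    have h1 : algebraMap R A a ∈ (RingHom.ker (MvPolynomial.map (σ := Fin N)
      (Ideal.Quotient.mk Q))).comap (f : A →+* MvPolynomial (Fin N) R) := hge ha
    have h2 : MvPolynomial.map (σ := Fin N) (Ideal.Quotient.mk Q) (f (algebraMap R A a)) = 0 := h1
    rw [f.commutes, MvPolynomial.algebraMap_eq, MvPolynomial.map_C] at h2
    have h3 : Ideal.Quotient.mk Q a = 0 := by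
      have := congrArg (MvPolynomial.constantCoeff) h2
      simpa using this
    exact Ideal.Quotient.eq_zero_iff_mem.1 h3
  have : q.comap (algebraMap R A) = Q := le_antisymm hfin hQle
  rw [this]
  exact hQ

end Pool.Agent.Helper78.GU
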