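import Pool.Agent.Helper78.GU.Moves

/-!
# Project GU, block B1b: the lemma of Suslin

If the row `a` of length `n` is the row of a matrix of determinant `1` modulo `b` then `(a, b^n)` is
the row of an invertible matrix.
-/

set_option autoImplicit false

namespace Pool.Agent.Helper78.GU

open Finset Matrix

universe u v

variable {A : Type u} [CommRing A] {ι : Type v} [Fintype ι] [DecidableEq ι]

/-- the identity matrix with a two by two block at the places `p`, `q` -/
def F2 (p q : ι) (a b c d : A) : Matrix ι ι A := fun i l =>
  if i = p then (if l = p then a else if l = q then b else 0)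
  else if i = q then (if l = p then c else if l = q then d else 0)
  else if i = l then 1 else 0

theorem sum2 {p q : ι} (hpq : p ≠ q) (a b : A) (f : ι → A) :
    ∑ k, (if k = p then a else if k = q then b else 0) * f k = a * f p + b * f q := by
  have h : ∀ k, (if k = p then a else if k = q then b else 0) * f k
      = (if k = p then a * f p else 0) + (if k = q then b * f q else 0) := by
    intro k
    by_cases h1 : k = p
    · subst h1
      simp [hpq]
    · by_cases h2 : k = q
      · subst h2
        simp [hpq.symm]
      · simp [h1, h2]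
  rw [Finset.sum_congr rfl fun k _ => h k, Finset.sum_add_distrib]
  simp

theorem F2_mul {p q : ι} (hpq : p ≠ q) (a b c d a' b' c' d' : A) :
    F2 p q a b c d * F2 p q a' b' c' d'
      = F2 p q (a * a' + b * c') (a * b' + b * d') (c * a' + d * c') (c * b' + d * d') := by
  ext i l
  rw [Matrix.mul_apply]
  by_cases hi : i = p
  · subst hi
    have h1 : ∀ k, F2 i q a b c d i k = if k = i then a else if k = q then b else 0 := by
      intro k
      simp [F2]
    rw [Finset.sum_congr rfl fun k _ => by rw [h1 k], sum2 hpq]
    by_cases hl : l = i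
    · subst hl
      simp [F2, hpq.symm]
    · by_cases hl2 : l = q
      · subst hl2
        simp [F2, hpq.symm]
      · simp [F2, hl, hl2, hpq.symm, Ne.symm hl2]
  · by_cases hi2 : i = q
    · subst hi2
      have h1 : ∀ k, F2 p i a b c d i k = if k = p then c else if k = i then d else 0 := by
        intro k
        simp [F2, hi]
      rw [Finset.sum_congr rfl fun k _ => by rw [h1 k], sum2 hpq]
      by_cases hl : l = p
      · subst hl
        simp [F2, hi]
      · by_cases hl2 : l = i
        · subst hl2
          simp [F2, hi]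
        · simp [F2, hl, hl2, hi]
    · rw [Finset.sum_eq_single i]
      · simp [F2, hi, hi2]
      · intro k _ hk
        simp [F2, hi, hi2, Ne.symm hk]
      · simp

theorem F2_one {p q : ι} (hpq : p ≠ q) : F2 p q (1 : A) 0 0 1 = 1 := by
  ext i l
  by_cases hi : i = p
  · subst hi
    by_cases hl : l = i
    · subst hl
      simp [F2]
    · simp [F2, hl, Matrix.one_apply, Ne.symm hl]
  · by_cases hi2 : i = q
    · subst hi2
      by_cases hl : l = p
      · subst hl
        simp [F2, hi, Matrix.one_apply]
      · by_cases hl2 : l = i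
        · subst hl2
          simp [F2, hi]
        · simp [F2, hi, hl, hl2, Matrix.one_apply, Ne.symm hl2]
    · simp [F2, hi, hi2, Matrix.one_apply]

/-- lift of a diagonal matrix of determinant one modulo `del` -/
theorem diag_lift (i0 : ι) (del b w : A) (h : b * w = 1 - del) (s : Finset ι) (hs : i0 ∉ s) :
    ∃ E E2 X : Matrix ι ι A, E * E2 = 1 ∧
      E = Matrix.diagonal (fun i => if i = i0 then w ^ s.card else if i ∈ s then b else 1)
        + del • X := by
  induction s using Finset.induction_on with
  | empty =>
    refine ⟨1, 1, 0, by simp, ?_⟩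
    simp
  | insert j s hj ih =>
    have hij : i0 ≠ j := fun h => hs (h ▸ Finset.mem_insert_self _ _)
    have hs' : i0 ∉ s := fun h => hs (Finset.mem_insert_of_mem h)
    obtain ⟨E, E2, X, hE, hX⟩ := ih hs'
    have hF : F2 i0 j (w + w * del) (-del) del b * F2 i0 j b del (-del) (w + w * del) = 1 := by
      rw [F2_mul hij, ← F2_one hij]
      congr 1
      · linear_combination (1 + del) * h
      · ring
      · ring
      · linear_combination (1 + del) * h
    have hFX : F2 i0 j (w + w * del) (-del) del b
        = Matrix.diagonal (fun i => if i = i0 then w else if i = j then b else 1)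
          + del • (Matrix.of fun i l => if i = i0 then (if l = i0 then w else if l = j then -1 else 0)
            else if i = j then (if l = i0 then 1 else 0) else 0 : Matrix ι ι A) := by
      ext i l
      rw [Matrix.add_apply, Matrix.smul_apply, Matrix.diagonal_apply, Matrix.of_apply]
      by_cases hi : i = i0
      · subst hi
        by_cases hl : l = i
        · subst hl
          simp [F2]
          ring
        · by_cases hl2 : l = j
          · subst hl2
            simp [F2, hij, hl]
          · simp [F2, hl, hl2, Ne.symm hl]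
      · by_cases hi2 : i = j
        · subst hi2
          by_cases hl : l = i0
          · subst hl
            simp [F2, hi]
          · by_cases hl2 : l = i
            · subst hl2
              simp [F2, hi]
            · simp [F2, hi, hl, hl2, Ne.symm hl2]
        · simp [F2, hi, hi2]
    set F := F2 i0 j (w + w * del) (-del) del b with hFdef
    set F' := F2 i0 j b del (-del) (w + w * del) with hF'def
    set Y : Matrix ι ι A := Matrix.of fun i l => if i = i0 then (if l = i0 then w else if l = j then -1 else 0)
            else if i = j then (if l = i0 then 1 else 0) else 0 with hYdef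
    refine ⟨F * E, E2 * F', Matrix.diagonal (fun i => if i = i0 then w else if i = j then b else 1) * X
      + Y * Matrix.diagonal (fun i => if i = i0 then w ^ s.card else if i ∈ s then b else 1)
      + del • (Y * X), ?_, ?_⟩
    · calc F * E * (E2 * F') = F * (E * E2) * F' := by simp only [Matrix.mul_assoc]
        _ = 1 := by rw [hE, Matrix.mul_one, hF]
    · rw [hFX, hX]
      have hd : Matrix.diagonal (fun i => if i = i0 then w else if i = j then b else 1)
          * Matrix.diagonal (fun i => if i = i0 then w ^ s.card else if i ∈ s then b else 1)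
          = Matrix.diagonal (fun i => if i = i0 then w ^ (insert j s).card
            else if i ∈ insert j s then b else 1) := by
        rw [Matrix.diagonal_mul_diagonal]
        congr 1
        funext i
        by_cases hi : i = i0
        · subst hi
          simp [Finset.card_insert_of_notMem hj, pow_succ']
        · by_cases hi2 : i = j
          · subst hi2
            simp [hi, hj]
          · simp [hi, hi2]
      rw [← hd]
      simp only [Matrix.add_mul, Matrix.mul_add, Matrix.smul_mul, Matrix.mul_smul, smul_add]
      abel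

/-- `b 1 = D E + del X` with `D = diag (b^n, 1, .., 1)` and `E` invertible -/
theorem scalar_lift (i0 : ι) (del b w : A) (h : b * w = 1 - del) :
    ∃ E E2 X : Matrix ι ι A, E * E2 = 1 ∧
      b • (1 : Matrix ι ι A)
        = Matrix.diagonal (fun i => if i = i0 then b ^ Fintype.card ι else 1) * E + del • X := by
  obtain ⟨E, E2, X, hE, hX⟩ := diag_lift i0 del b w h (univ.erase i0) (by simp)
  have hcard : (univ.erase i0).card + 1 = Fintype.card ι := by
    rw [Finset.card_erase_add_one (Finset.mem_univ i0), Finset.card_univ]
  have hdvd : del ∣ (1 - del) ^ (univ.erase i0).card - 1 := by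
    have h1 := sub_dvd_pow_sub_pow (1 - del) 1 (univ.erase i0).card
    rw [one_pow] at h1
    exact (Dvd.intro (-1) (by ring : del * (-1) = 1 - del - 1)).trans h1
  obtain ⟨t, ht⟩ := hdvd
  refine ⟨E, E2, -(Matrix.diagonal (fun i => if i = i0 then b ^ Fintype.card ι else 1) * X)
    + Matrix.diagonal (fun i => if i = i0 then -(b * t) else 0), hE, ?_⟩
  rw [hX, Matrix.mul_add, Matrix.mul_smul, Matrix.diagonal_mul_diagonal, smul_add, smul_neg]
  have h2 : b • (1 : Matrix ι ι A)
      = Matrix.diagonal (fun i => (if i = i0 then b ^ Fintype.card ι else 1)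
        * (if i = i0 then w ^ (univ.erase i0).card else if i ∈ univ.erase i0 then b else 1))
      + del • Matrix.diagonal (fun i => if i = i0 then -(b * t) else 0) := by
    rw [← Matrix.diagonal_smul, Matrix.diagonal_add, ← Matrix.diagonal_one, ← Matrix.diagonal_smul]
    congr 1
    funext i
    by_cases hi : i = i0
    · subst hi
      simp only [Pi.smul_apply, smul_eq_mul, if_true, mul_one]
      rw [← hcard]
      have h3 : b ^ ((univ.erase i).card + 1) * w ^ (univ.erase i).card
          = b * (b * w) ^ (univ.erase i).card := by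
        rw [mul_pow]
        ring
      rw [h3, h]
      linear_combination (-b) * ht
    · simp [hi]
  rw [h2]
  abel

/-- Suslin's lemma -/
theorem suslin_lemma (i0 : ι) (al : Matrix ι ι A) (b c : A) (hdet : al.det = 1 + b * c) :
    ∃ M M' : Matrix (ι ⊕ Unit) (ι ⊕ Unit) A, M * M' = 1 ∧
      (∀ j, M (Sum.inr ()) (Sum.inl j) = al i0 j) ∧
      M (Sum.inr ()) (Sum.inr ()) = b ^ Fintype.card ι := by
  obtain ⟨E, E2, X, hE, hX⟩ := scalar_lift i0 al.det b (-c) (by rw [hdet]; ring)
  have hE' : E2 * E = 1 := mul_eq_one_comm.mp hE
  have ha1 : al * al.adjugate = al.det • (1 : Matrix ι ι A) := Matrix.mul_adjugate al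
  have ha2 : al.adjugate * al = al.det • (1 : Matrix ι ι A) := Matrix.adjugate_mul al
  set del := al.det with hdel
  set ad := al.adjugate with had
  set D : Matrix ι ι A := Matrix.diagonal (fun i => if i = i0 then b ^ Fintype.card ι else 1) with hD
  set P0 : Matrix ι ι A := ad - c • (ad * X) with hP0
  set Q0 : Matrix ι ι A := -(b • (1 : Matrix ι ι A)) + ad * X * al with hQ0
  set R0 : Matrix ι ι A := -(c • E) with hR0
  set S0 : Matrix ι ι A := E * al with hS0
  set B : Matrix ι ι A := P0 * E2 with hB
  set al0 : Matrix ι ι A := fun i j => if i = i0 then 0 else al i j with hal0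
  set G : Matrix ι ι A := c • (1 : Matrix ι ι A) - B * al0 with hG
  have TL : al * P0 + D * R0 = 1 := by
    have e1 : D * E = b • (1 : Matrix ι ι A) - del • X := by rw [hX]; abel
    rw [hP0, hR0, Matrix.mul_sub, Matrix.mul_smul, ← Matrix.mul_assoc, ha1, Matrix.mul_neg,
      Matrix.mul_smul, e1, Matrix.smul_mul, Matrix.one_mul, smul_sub, smul_smul, smul_smul]
    have e2 : del • (1 : Matrix ι ι A) - (c * b) • (1 : Matrix ι ι A) = 1 := by
      rw [← sub_smul, hdet]
      have : 1 + b * c - c * b = 1 := by ring
      rw [this, one_smul]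
    refine Eq.trans ?_ e2
    abel
  have TR : al * Q0 + D * S0 = 0 := by
    have e1 : D * E = b • (1 : Matrix ι ι A) - del • X := by rw [hX]; abel
    rw [hQ0, hS0, ← Matrix.mul_assoc, e1, Matrix.mul_add, Matrix.mul_neg, Matrix.mul_smul,
      Matrix.mul_one, ← Matrix.mul_assoc, ← Matrix.mul_assoc, ha1, Matrix.sub_mul]
    simp only [Matrix.smul_mul, Matrix.one_mul]
    abel
  have BR : c • Q0 + B * S0 = 1 := by
    have e1 : B * S0 = P0 * al := by
      rw [hB, hS0, Matrix.mul_assoc, ← Matrix.mul_assoc E2, hE', Matrix.one_mul]
    rw [e1, hP0, hQ0, Matrix.sub_mul, ha2, smul_add, smul_neg, smul_smul, Matrix.smul_mul]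
    have e2 : del • (1 : Matrix ι ι A) - (c * b) • (1 : Matrix ι ι A) = 1 := by
      rw [← sub_smul, hdet]
      have : 1 + b * c - c * b = 1 := by ring
      rw [this, one_smul]
    refine Eq.trans ?_ e2
    abel
  have BL : c • P0 + B * R0 = 0 := by
    rw [hB, hR0, Matrix.mul_neg, Matrix.mul_smul, Matrix.mul_assoc, hE', Matrix.mul_one]
    abel
  -- rows other than `i0`
  have rowD : ∀ (Y : Matrix ι ι A) (i l : ι), i ≠ i0 → (D * Y) i l = Y i l := by
    intro Y i l hi
    rw [hD, Matrix.diagonal_mul]
    simp [hi]
  have rowD0 : ∀ (Y : Matrix ι ι A) (l : ι), (D * Y) i0 l = b ^ Fintype.card ι * Y i0 l := by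
    intro Y l
    rw [hD, Matrix.diagonal_mul]
    simp
  have row0 : ∀ (Y : Matrix ι ι A) (l : ι), (al0 * Y) i0 l = 0 := by
    intro Y l
    rw [Matrix.mul_apply]
    apply Finset.sum_eq_zero
    intro k _
    simp [hal0]
  have rowi : ∀ (Y : Matrix ι ι A) (i l : ι), i ≠ i0 → (al0 * Y) i l = (al * Y) i l := by
    intro Y i l hi
    rw [Matrix.mul_apply, Matrix.mul_apply]
    apply Finset.sum_congr rfl
    intro k _
    simp [hal0, hi]
  have hQS : ∀ i l, i ≠ i0 → (al0 * Q0 + S0) i l = 0 := by
    intro i l hi
    rw [Matrix.add_apply, rowi _ _ _ hi, ← rowD S0 i l hi, ← Matrix.add_apply, TR, Matrix.zero_apply]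
  have hPR : ∀ i, i ≠ i0 → (al0 * P0 + R0) i i0 = 0 := by
    intro i hi
    rw [Matrix.add_apply, rowi _ _ _ hi, ← rowD R0 i i0 hi, ← Matrix.add_apply, TL,
      Matrix.one_apply_ne hi]
  clear_value P0 Q0 R0 S0 B G al0 D
  refine ⟨Matrix.fromBlocks G (Matrix.of fun i _ => B i i0) (Matrix.of fun _ j => al i0 j)
      (Matrix.of fun _ _ => b ^ Fintype.card ι),
    Matrix.fromBlocks Q0 (Matrix.of fun i _ => P0 i i0) (Matrix.of fun _ j => S0 i0 j)
      (Matrix.of fun _ _ => R0 i0 i0), ?_, ?_, ?_⟩
  · rw [Matrix.fromBlocks_multiply, ← Matrix.fromBlocks_one]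
    congr 1
    · have e1 : (Matrix.of fun i (_ : Unit) => B i i0) * (Matrix.of fun (_ : Unit) j => S0 i0 j)
          = B * (al0 * Q0 + S0) := by
        ext i l
        rw [Matrix.mul_apply, Matrix.mul_apply, Finset.sum_eq_single i0]
        · simp [Matrix.add_apply, row0]
        · intro k _ hk
          rw [hQS k l hk, mul_zero]
        · simp
      rw [e1, hG, Matrix.sub_mul, Matrix.smul_mul, Matrix.one_mul, Matrix.mul_add,
        Matrix.mul_assoc]
      refine Eq.trans ?_ BR
      abel
    · ext i l
      rw [Matrix.add_apply]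
      have e1 : (G * (Matrix.of fun i (_ : Unit) => P0 i i0)) i l = (G * P0) i i0 := by
        rw [Matrix.mul_apply, Matrix.mul_apply]
        rfl
      have e2 : ((Matrix.of fun i (_ : Unit) => B i i0) * (Matrix.of fun (_ : Unit) (_ : Unit) => R0 i0 i0)) i l
          = (B * (al0 * P0 + R0)) i i0 := by
        rw [Matrix.mul_apply, Matrix.mul_apply, Finset.sum_eq_single i0]
        · simp [Matrix.add_apply, row0]
        · intro k _ hk
          rw [hPR k hk, mul_zero]
        · simp
      rw [e1, e2, ← Matrix.add_apply, hG, Matrix.sub_mul, Matrix.smul_mul, Matrix.one_mul,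
        Matrix.mul_add, Matrix.mul_assoc]
      have e3 : c • P0 - B * (al0 * P0) + (B * (al0 * P0) + B * R0) = 0 := by
        refine Eq.trans ?_ BL
        abel
      rw [e3]
      rfl
    · ext l i
      rw [Matrix.add_apply]
      have e1 : ((Matrix.of fun (_ : Unit) j => al i0 j) * Q0) l i = (al * Q0) i0 i := by
        rw [Matrix.mul_apply, Matrix.mul_apply]
        rfl
      have e2 : ((Matrix.of fun (_ : Unit) (_ : Unit) => b ^ Fintype.card ι)
          * (Matrix.of fun (_ : Unit) j => S0 i0 j)) l i = (D * S0) i0 i := by
        rw [rowD0, Matrix.mul_apply]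
        simp
      rw [e1, e2, ← Matrix.add_apply, TR]
      rfl
    · ext l l'
      rw [Matrix.add_apply]
      have e1 : ((Matrix.of fun (_ : Unit) j => al i0 j) * (Matrix.of fun i (_ : Unit) => P0 i i0)) l l'
          = (al * P0) i0 i0 := by
        rw [Matrix.mul_apply, Matrix.mul_apply]
        rfl
      have e2 : ((Matrix.of fun (_ : Unit) (_ : Unit) => b ^ Fintype.card ι)
          * (Matrix.of fun (_ : Unit) (_ : Unit) => R0 i0 i0)) l l' = (D * R0) i0 i0 := by
        rw [rowD0, Matrix.mul_apply]
        simp
      rw [e1, e2, ← Matrix.add_apply, TL]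
      simp
  · intro j
    simp
  · simp

end Pool.Agent.Helper78.GU
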